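import Pool.Agent.X93.HW.CaseAB

/-! Boundedness for all functions implies the condition `A_p`. -/

set_option autoImplicit false

open MeasureTheory Set Filter Topology
open scoped ENNReal NNReal Real

namespace Pool.Agent.X93.HW

section

variable {p : ℝ} (hp : 1 < p) {U : ℝ → ℝ} (hU : Wt U) {C : ℝ≥0} (hbd : Bd p U C)

include hU in
lemma exists_trunc {S : Set ℝ} (hS : IsOpen S) {r : ℝ≥0∞} (hr : r < ∫⁻ x in S, sg p U x) :
    ∃ (N : ℕ) (K : Set ℝ), K ⊆ S ∧ IsCompact K ∧ r < ∫⁻ x in K, min (sg p U x) (N : ℝ≥0∞) := by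
  have hmono : Monotone (fun (N : ℕ) x => min (sg p U x) (N : ℝ≥0∞)) := by
    intro N M hNM x
    exact min_le_min le_rfl (by exact_mod_cast hNM)
  have hsup : ⨆ N : ℕ, ∫⁻ x in S, min (sg p U x) (N : ℝ≥0∞) = ∫⁻ x in S, sg p U x := by
    rw [← lintegral_iSup (fun N => (measurable_sg hU.meas).min measurable_const) hmono]
    apply lintegral_congr
    intro x
    have h1 : sg p U x ⊓ (⨆ N : ℕ, (N : ℝ≥0∞)) = ⨆ N : ℕ, sg p U x ⊓ (N : ℝ≥0∞) := inf_iSup_eq _ _
    rw [ENNReal.iSup_natCast, inf_top_eq] at h1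
    exact h1.symm
  obtain ⟨N, hN⟩ : ∃ N : ℕ, r < ∫⁻ x in S, min (sg p U x) (N : ℝ≥0∞) := by
    rw [← lt_iSup_iff, hsup]
    exact hr
  set ν : Measure ℝ := volume.withDensity (fun x => min (sg p U x) (N : ℝ≥0∞)) with hν
  have hνle : ν ≤ (N : ℝ≥0∞) • volume := by
    rw [hν, ← withDensity_const]
    apply withDensity_mono
    exact Eventually.of_forall (fun x => min_le_right _ _)
  have : IsLocallyFiniteMeasure ν := by
    refine ⟨fun x => ⟨Metric.ball x 1, Metric.ball_mem_nhds x one_pos, ?_⟩⟩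
    refine lt_of_le_of_lt (hνle _) ?_
    rw [Measure.smul_apply, smul_eq_mul]
    exact ENNReal.mul_lt_top (ENNReal.natCast_lt_top N) measure_ball_lt_top
  have hνS : r < ν S := by
    rw [hν, withDensity_apply _ hS.measurableSet]
    exact hN
  obtain ⟨K, hKS, hK, hKlt⟩ := hS.exists_lt_isCompact hνS
  rw [hν, withDensity_apply _ hK.measurableSet] at hKlt
  exact ⟨N, K, hKS, hK, hKlt⟩

/-- the mass of an interval -/
noncomputable def wm (U : ℝ → ℝ) (a b : ℝ) : ℝ≥0∞ := ∫⁻ x in Ioo a b, ENNReal.ofReal (U x)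

include hU in
lemma wm_lt_top (a b : ℝ) : wm U a b < ⊤ := by
  have h3 := ((hU.loc.integrableOn_isCompact (isCompact_Icc (a := a) (b := b))).mono_set
    Ioo_subset_Icc_self).hasFiniteIntegral
  rw [hasFiniteIntegral_iff_ofReal] at h3
  · exact h3
  · exact Eventually.of_forall hU.nn

include hp hU in
lemma nm_indicator (c : ℝ) (hc : 0 ≤ c) {S : Set ℝ} (hS : MeasurableSet S) :
    nm p U (S.indicator (fun _ => c)) = ENNReal.ofReal c * (∫⁻ x in S, ENNReal.ofReal (U x)) ^ (1 / p) := by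
  have hp0 : 0 < p := by linarith
  rw [nm_eq hp hU.nn]
  have h1 : ∫⁻ x, ENNReal.ofReal (|S.indicator (fun _ => c) x| ^ p * U x)
      = ENNReal.ofReal (c ^ p) * ∫⁻ x in S, ENNReal.ofReal (U x) := by
    rw [← lintegral_indicator hS, ← lintegral_const_mul' _ _ ENNReal.ofReal_ne_top]
    apply lintegral_congr
    intro x
    by_cases hx : x ∈ S
    · rw [indicator_of_mem hx, indicator_of_mem hx, abs_of_nonneg hc,
        ENNReal.ofReal_mul (Real.rpow_nonneg hc _)]
    · rw [indicator_of_notMem hx, indicator_of_notMem hx, abs_zero, Real.zero_rpow hp0.ne', zero_mul,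
        ENNReal.ofReal_zero, mul_zero]
  rw [h1, ENNReal.mul_rpow_of_nonneg _ _ (by positivity),
    ENNReal.ofReal_rpow_of_nonneg (Real.rpow_nonneg hc _) (by positivity),
    ← Real.rpow_mul hc, mul_one_div_cancel hp0.ne', Real.rpow_one]

include hp hU hbd in
/-- testing on a nice function, two adjacent intervals -/
lemma cross_nice {a a' l : ℝ} (hl : 0 < l) (haa : a' = a + l ∨ a = a' + l) {ψ : ℝ → ℝ}
    (hψ : Nice ψ) (hS : ∀ x, x ∉ Ioo a (a + l) → ψ x = 0) :
    ENNReal.ofReal ((∫ x, ψ x) / (2 * π * l)) * wm U a' (a' + l) ^ (1 / p) ≤ C * nm p U ψ := by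
  have hpi := Real.pi_pos
  have hI0 : 0 ≤ ∫ x, ψ x := integral_nonneg hψ.nn
  have hc0 : 0 ≤ (∫ x, ψ x) / (2 * π * l) := by positivity
  refine le_trans ?_ (hbd _ _ hψ.integrable hψ.ht)
  unfold wm
  rw [← nm_indicator hp hU _ hc0 measurableSet_Ioo]
  apply nm_mono hU.nn
  refine Eventually.of_forall (fun x => ?_)
  by_cases hx : x ∈ Ioo a' (a' + l)
  · rw [indicator_of_mem hx, abs_of_nonneg hc0]
    have hsep : ∃ r, 0 < r ∧ (∀ y, |y - x| < r → ψ y = 0) ∧
        ((∀ y, ψ y ≠ 0 → 0 < x - y ∧ x - y < 2 * l) ∨ (∀ y, ψ y ≠ 0 → 0 < y - x ∧ y - x < 2 * l)) := by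
      rcases haa with h | h
      · refine ⟨x - a', by linarith [hx.1], ?_, Or.inl ?_⟩
        · intro y hy
          apply hS
          intro hc
          have := (abs_lt.1 hy).1
          linarith [hc.2]
        · intro y hy
          have hy' : y ∈ Ioo a (a + l) := by
            by_contra hc
            exact hy (hS y hc)
          exact ⟨by linarith [hy'.2, hx.1], by linarith [hy'.1, hx.2]⟩
      · refine ⟨a - x, by linarith [hx.2], ?_, Or.inr ?_⟩
        · intro y hy
          apply hS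
          intro hc
          have := (abs_lt.1 hy).2
          linarith [hc.1]
        · intro y hy
          have hy' : y ∈ Ioo a (a + l) := by
            by_contra hc
            exact hy (hS y hc)
          exact ⟨by linarith [hy'.1, hx.2], by linarith [hy'.2, hx.1]⟩
    obtain ⟨r, hr, hz, hside⟩ := hsep
    rw [hψ.far_eq hr hz, abs_mul, abs_of_pos (by positivity : 0 < 1 / π)]
    have hI := integrable_far hψ.integrable hr hz
    have h1 : (∫ y, ψ y) / (2 * l) ≤ |∫ y, ψ y / (x - y)| := by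
      rw [← integral_div]
      rcases hside with h | h
      · refine le_trans ?_ (le_abs_self _)
        apply integral_mono (hψ.integrable.div_const _) hI
        intro y
        simp only
        by_cases hy : ψ y = 0
        · rw [hy]; simp
        · obtain ⟨h2, h3⟩ := h y hy
          exact div_le_div_of_nonneg_left (hψ.nn y) h2 h3.le
      · refine le_trans ?_ (neg_le_abs _)
        rw [← integral_neg]
        apply integral_mono (hψ.integrable.div_const _) hI.neg
        intro y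
        simp only [Pi.neg_apply]
        by_cases hy : ψ y = 0
        · rw [hy]; simp
        · obtain ⟨h2, h3⟩ := h y hy
          have : -(ψ y / (x - y)) = ψ y / (y - x) := by
            rw [← div_neg]
            congr 1
            ring
          rw [this]
          exact div_le_div_of_nonneg_left (hψ.nn y) h2 h3.le
    calc (∫ x, ψ x) / (2 * π * l) = 1 / π * ((∫ y, ψ y) / (2 * l)) := by
          field_simp
      _ ≤ _ := by gcongr
  · rw [indicator_of_notMem hx, abs_zero]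
    exact abs_nonneg _

include hp hU hbd in
/-- testing on a bounded function -/
lemma cross {a a' l : ℝ} (hl : 0 < l) (haa : a' = a + l ∨ a = a' + l) {φ : ℝ → ℝ} {N : ℝ}
    (hφm : Measurable φ) (h0 : ∀ x, 0 ≤ φ x) (hN : ∀ x, φ x ≤ N) {K : Set ℝ} (hK : IsCompact K)
    (hKS : K ⊆ Ioo a (a + l)) (hφK : ∀ x, x ∉ K → φ x = 0) (hφi : Integrable φ) :
    ENNReal.ofReal ((∫ x, φ x) / (2 * π * l)) * wm U a' (a' + l) ^ (1 / p) ≤ C * nm p U φ := by
  have hp0 : 0 < p := by linarith
  have hpi := Real.pi_pos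
  have hM : wm U a' (a' + l) ^ (1 / p) ≠ ⊤ :=
    ENNReal.rpow_ne_top_of_nonneg (by positivity) (wm_lt_top hU _ _).ne
  have h1 : ∀ n : ℕ, ENNReal.ofReal (((∫ x, φ x) - 1 / ((n : ℝ) + 1)) / (2 * π * l))
      * wm U a' (a' + l) ^ (1 / p) ≤ C * (nm p U φ + 1 * ENNReal.ofReal (1 / ((n : ℝ) + 1))) := by
    intro n
    obtain ⟨ψ, hψ, hψS, -, h2, h3⟩ := approx_nm hp hU hφm h0 hN hK isOpen_Ioo hKS hφK hφi
      (by positivity : (0 : ℝ) < 1 / ((n : ℝ) + 1))
    have h4 := cross_nice hp hU hbd hl haa hψ hψS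
    have h5 : (∫ x, φ x) - 1 / ((n : ℝ) + 1) ≤ ∫ x, ψ x := by
      have := (abs_le.1 h2).1
      linarith
    calc ENNReal.ofReal (((∫ x, φ x) - 1 / ((n : ℝ) + 1)) / (2 * π * l))
          * wm U a' (a' + l) ^ (1 / p)
        ≤ ENNReal.ofReal ((∫ x, ψ x) / (2 * π * l)) * wm U a' (a' + l) ^ (1 / p) := by gcongr
      _ ≤ C * nm p U ψ := h4
      _ ≤ C * (nm p U φ + 1 * ENNReal.ofReal (1 / ((n : ℝ) + 1))) := by
          rw [one_mul]
          gcongr
  have h2 : Tendsto (fun n : ℕ => ENNReal.ofReal (((∫ x, φ x) - 1 / ((n : ℝ) + 1)) / (2 * π * l))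
      * wm U a' (a' + l) ^ (1 / p)) atTop
      (𝓝 (ENNReal.ofReal ((∫ x, φ x) / (2 * π * l)) * wm U a' (a' + l) ^ (1 / p))) := by
    apply ENNReal.Tendsto.mul_const _ (Or.inr hM)
    apply ENNReal.tendsto_ofReal
    have h3 := ((tendsto_one_div_add_atTop_nhds_zero_nat (𝕜 := ℝ)).const_sub
      (∫ x, φ x)).div_const (2 * π * l)
    rwa [sub_zero] at h3
  exact le_of_tendsto_of_tendsto' h2 (tendsto_bound C (nm p U φ) 1 (by simp)) h1

include hp hU hbd in
/-- comparison of adjacent intervals -/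
lemma adjacent {a a' l : ℝ} (hl : 0 < l) (haa : a' = a + l ∨ a = a' + l) :
    wm U a' (a' + l) ^ (1 / p) ≤ ENNReal.ofReal (4 * π) * C * wm U a (a + l) ^ (1 / p) := by
  have hp0 : 0 < p := by linarith
  have hpi := Real.pi_pos
  set K : Set ℝ := Icc (a + l / 4) (a + 3 * l / 4) with hK
  have hKS : K ⊆ Ioo a (a + l) := by
    intro x hx
    exact ⟨by linarith [hx.1], by linarith [hx.2]⟩
  have hφi : Integrable (K.indicator (fun _ => (1 : ℝ))) := by
    rw [integrable_indicator_iff measurableSet_Icc]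
    exact integrableOn_const (by simp)
  have hint : ∫ x, K.indicator (fun _ => (1 : ℝ)) x = l / 2 := by
    rw [integral_indicator measurableSet_Icc, setIntegral_const, smul_eq_mul, mul_one,
      Measure.real, Real.volume_Icc, ENNReal.toReal_ofReal (by linarith)]
    ring
  have h1 := cross hp hU hbd hl haa (φ := K.indicator (fun _ => (1 : ℝ))) (N := 1)
    (measurable_const.indicator measurableSet_Icc)
    (fun x => indicator_nonneg (fun _ _ => zero_le_one) x)
    (fun x => by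
      by_cases hx : x ∈ K
      · rw [indicator_of_mem hx]
      · rw [indicator_of_notMem hx]; exact zero_le_one)
    isCompact_Icc hKS (fun x hx => indicator_of_notMem hx _) hφi
  rw [hint, nm_indicator hp hU 1 zero_le_one measurableSet_Icc, ENNReal.ofReal_one, one_mul] at h1
  have h2 : l / 2 / (2 * π * l) = (4 * π)⁻¹ := by field_simp; norm_num
  rw [h2] at h1
  have h3 : (∫⁻ x in K, ENNReal.ofReal (U x)) ≤ wm U a (a + l) :=
    lintegral_mono_set hKS
  calc wm U a' (a' + l) ^ (1 / p)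
      = ENNReal.ofReal (4 * π) * (ENNReal.ofReal (4 * π)⁻¹ * wm U a' (a' + l) ^ (1 / p)) := by
        rw [← mul_assoc, ← ENNReal.ofReal_mul (by positivity), mul_inv_cancel₀ (by positivity),
          ENNReal.ofReal_one, one_mul]
    _ ≤ ENNReal.ofReal (4 * π) * (C * (∫⁻ x in K, ENNReal.ofReal (U x)) ^ (1 / p)) := by gcongr
    _ ≤ ENNReal.ofReal (4 * π) * (C * wm U a (a + l) ^ (1 / p)) := by gcongr
    _ = _ := by ring

/-- the constant -/
noncomputable def DD (C : ℝ≥0) : ℝ≥0∞ := ENNReal.ofReal (8 * π ^ 2) * C * C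

include hp hU hbd in
/-- testing on the same interval -/
lemma same {a l : ℝ} (hl : 0 < l) {φ : ℝ → ℝ} {N : ℝ}
    (hφm : Measurable φ) (h0 : ∀ x, 0 ≤ φ x) (hN : ∀ x, φ x ≤ N) {K : Set ℝ} (hK : IsCompact K)
    (hKS : K ⊆ Ioo a (a + l)) (hφK : ∀ x, x ∉ K → φ x = 0) (hφi : Integrable φ) :
    ENNReal.ofReal (∫ x, φ x) * wm U a (a + l) ^ (1 / p)
      ≤ DD C * ENNReal.ofReal l * nm p U φ := by
  have hpi := Real.pi_pos
  have h1 := cross hp hU hbd (a' := a + l) hl (Or.inl rfl) hφm h0 hN hK hKS hφK hφi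
  have h2 := adjacent hp hU hbd (a := a + l) (a' := a) hl (Or.inr rfl)
  have hI0 : 0 ≤ ∫ x, φ x := integral_nonneg h0
  calc ENNReal.ofReal (∫ x, φ x) * wm U a (a + l) ^ (1 / p)
      ≤ ENNReal.ofReal (∫ x, φ x) * (ENNReal.ofReal (4 * π) * C
          * wm U (a + l) (a + l + l) ^ (1 / p)) := by gcongr
    _ = (ENNReal.ofReal (4 * π) * C * ENNReal.ofReal (2 * π * l))
          * (ENNReal.ofReal ((∫ x, φ x) / (2 * π * l)) * wm U (a + l) (a + l + l) ^ (1 / p)) := by
        have e : ENNReal.ofReal (∫ x, φ x)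
            = ENNReal.ofReal (2 * π * l) * ENNReal.ofReal ((∫ x, φ x) / (2 * π * l)) := by
          rw [← ENNReal.ofReal_mul (by positivity), mul_div_cancel₀ _ (by positivity)]
        rw [e]
        ring
    _ ≤ (ENNReal.ofReal (4 * π) * C * ENNReal.ofReal (2 * π * l)) * (C * nm p U φ) := by gcongr
    _ = DD C * ENNReal.ofReal l * nm p U φ := by
        unfold DD
        have e : ENNReal.ofReal (2 * π * l) = ENNReal.ofReal (2 * π) * ENNReal.ofReal l :=
          ENNReal.ofReal_mul (by positivity)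
        have e2 : ENNReal.ofReal (8 * π ^ 2) = ENNReal.ofReal (4 * π) * ENNReal.ofReal (2 * π) := by
          rw [← ENNReal.ofReal_mul (by positivity)]
          congr 1
          ring
        rw [e, e2]
        ring

include hU in
/-- some large interval has positive mass -/
lemma exists_pos : ∃ n0 : ℕ, ∀ n : ℕ, n0 ≤ n → 0 < wm U (-(n : ℝ)) n := by
  by_contra hcon
  push Not at hcon
  apply hU.ne
  have h1 : ∀ n : ℕ, wm U (-(n : ℝ)) n = 0 := by
    intro n
    obtain ⟨m, hm, hm0⟩ := hcon n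
    have h2 : wm U (-(n : ℝ)) n ≤ wm U (-(m : ℝ)) m := by
      have : (n : ℝ) ≤ m := by exact_mod_cast hm
      exact lintegral_mono_set (Ioo_subset_Ioo (by linarith) this)
    exact le_antisymm (h2.trans hm0) bot_le
  have h3 : ∀ n : ℕ, ∀ᵐ x : ℝ, x ∈ Ioo (-(n : ℝ)) n → U x = 0 := by
    intro n
    have h4 := h1 n
    unfold wm at h4
    rw [lintegral_eq_zero_iff hU.meas.ennreal_ofReal] at h4
    rw [EventuallyEq, ae_restrict_iff' measurableSet_Ioo] at h4
    filter_upwards [h4] with x hx hx2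
    have := hx hx2
    simp only [Pi.zero_apply, ENNReal.ofReal_eq_zero] at this
    exact le_antisymm this (hU.nn x)
  rw [← ae_all_iff] at h3
  filter_upwards [h3] with x hx
  obtain ⟨n, hn⟩ := exists_nat_gt |x|
  exact hx n (abs_lt.1 hn)

include hp hU hbd in
lemma ae_pos : ∀ᵐ x : ℝ, 0 < U x := by
  have hp0 : 0 < p := by linarith
  obtain ⟨n0, hn0⟩ := exists_pos hU
  have h1 : ∀ n : ℕ, volume ({x : ℝ | U x = 0} ∩ Icc (-(n : ℝ)) n) = 0 := by
    intro n
    set Z : Set ℝ := {x : ℝ | U x = 0} ∩ Icc (-(n : ℝ)) n with hZ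
    have hZm : MeasurableSet Z := (hU.meas (measurableSet_singleton 0)).inter measurableSet_Icc
    have hZf : volume Z ≠ ⊤ := ne_top_of_le_ne_top (by simp) (measure_mono inter_subset_right :
      volume Z ≤ volume (Icc (-(n : ℝ)) n))
    set M : ℕ := max n0 (n + 1) with hM
    have hMn : (n : ℝ) + 1 ≤ M := by
      have : n + 1 ≤ M := le_max_right _ _
      exact_mod_cast this
    have hφi : Integrable (Z.indicator (fun _ => (1 : ℝ))) := by
      rw [integrable_indicator_iff hZm]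
      exact integrableOn_const hZf
    have h2 := same hp hU hbd (a := -(M : ℝ)) (l := 2 * M) (by
        have : (0 : ℝ) ≤ n := Nat.cast_nonneg n
        linarith) (φ := Z.indicator (fun _ => (1 : ℝ))) (N := 1)
      (measurable_const.indicator hZm)
      (fun x => indicator_nonneg (fun _ _ => zero_le_one) x)
      (fun x => by
        by_cases hx : x ∈ Z
        · rw [indicator_of_mem hx]
        · rw [indicator_of_notMem hx]; exact zero_le_one)
      (isCompact_Icc (a := -(n : ℝ)) (b := n)) (by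
        intro x hx
        exact ⟨by linarith [hx.1], by linarith [hx.2]⟩)
      (fun x hx => indicator_of_notMem (fun h => hx h.2) _) hφi
    rw [show -(M : ℝ) + 2 * M = M by ring, nm_indicator hp hU 1 zero_le_one hZm] at h2
    have h3 : ∫⁻ x in Z, ENNReal.ofReal (U x) = 0 := by
      rw [lintegral_eq_zero_iff hU.meas.ennreal_ofReal, EventuallyEq,
        ae_restrict_iff' hZm]
      refine Eventually.of_forall (fun x hx => ?_)
      have : U x = 0 := hx.1
      simp [this]
    rw [h3, ENNReal.zero_rpow_of_pos (by positivity), mul_zero, mul_zero] at h2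
    have h4 : 0 < wm U (-(M : ℝ)) M := hn0 M (le_max_left _ _)
    have h5 : (wm U (-(M : ℝ)) M) ^ (1 / p) ≠ 0 := by
      rw [Ne, ENNReal.rpow_eq_zero_iff]
      push Not
      exact ⟨fun h => absurd h h4.ne', fun h => absurd h (wm_lt_top hU _ _).ne⟩
    have h6 : ENNReal.ofReal (∫ x, Z.indicator (fun _ => (1 : ℝ)) x) = 0 := by
      rcases mul_eq_zero.1 (le_antisymm h2 bot_le) with h | h
      · exact h
      · exact absurd h h5
    rw [ENNReal.ofReal_eq_zero, integral_indicator hZm, setIntegral_const, smul_eq_mul, mul_one] at h6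
    have h7 : (volume Z).toReal = 0 := le_antisymm h6 ENNReal.toReal_nonneg
    rcases (ENNReal.toReal_eq_zero_iff _).1 h7 with h | h
    · exact h
    · exact absurd h hZf
  have h2 : volume {x : ℝ | U x = 0} = 0 := by
    have h3 : {x : ℝ | U x = 0} ⊆ ⋃ n : ℕ, ({x : ℝ | U x = 0} ∩ Icc (-(n : ℝ)) n) := by
      intro x hx
      obtain ⟨n, hn⟩ := exists_nat_ge |x|
      exact mem_iUnion.2 ⟨n, hx, abs_le.1 hn⟩
    exact measure_mono_null h3 (measure_iUnion_null h1)
  rw [ae_iff]
  refine measure_mono_null (fun x hx => ?_) h2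
  exact le_antisymm (not_lt.1 hx) (hU.nn x)

include hp hU hbd in
/-- the condition `A_p` -/
theorem ap : ∀ a b : ℝ, a < b →
    ((∫⁻ x in Ioo a b, ENNReal.ofReal (U x)) / ENNReal.ofReal (b - a))
      * ((∫⁻ x in Ioo a b, sg p U x) / ENNReal.ofReal (b - a)) ^ (p - 1) ≤ DD C ^ p := by
  intro a b hab
  have hp0 : 0 < p := by linarith
  have hp1 : 0 < p - 1 := by linarith
  set l : ℝ := b - a with hl
  have hl0 : 0 < l := by rw [hl]; linarith
  have hb : b = a + l := by rw [hl]; ring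
  rw [hb]
  set w : ℝ≥0∞ := ∫⁻ x in Ioo a (a + l), ENNReal.ofReal (U x) with hw
  set s : ℝ≥0∞ := ∫⁻ x in Ioo a (a + l), sg p U x with hs
  have hwt : w ≠ ⊤ := (wm_lt_top hU a (a + l)).ne
  have hlne : ENNReal.ofReal l ≠ 0 := by
    rw [Ne, ENNReal.ofReal_eq_zero, not_le]; exact hl0
  have hlt : ENNReal.ofReal l ≠ ⊤ := ENNReal.ofReal_ne_top
  have hDt : DD C ≠ ⊤ := by
    unfold DD
    exact ENNReal.mul_ne_top (ENNReal.mul_ne_top ENNReal.ofReal_ne_top ENNReal.coe_ne_top)
      ENNReal.coe_ne_top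
  -- main claim
  have claim : ∀ r : ℝ≥0∞, r < s → r ^ (p - 1) * w ≤ (DD C * ENNReal.ofReal l) ^ p := by
    intro r hr
    obtain ⟨N, K, hKS, hK, hKlt⟩ := exists_trunc hU isOpen_Ioo hr
    obtain ⟨φ, hm, h0, hφN, hz, hint, heq, hnm, -⟩ := trunc_fun hp hU N hK
    rw [← heq] at hKlt
    set A : ℝ≥0∞ := ENNReal.ofReal (∫ x, φ x) with hA
    have hAt : A ≠ ⊤ := ENNReal.ofReal_ne_top
    have hA0 : A ≠ 0 := (lt_of_le_of_lt bot_le hKlt).ne'
    have h1 := same hp hU hbd hl0 hm h0 hφN hK hKS hz hint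
    have h2 : nm p U φ ≤ A ^ (1 / p) := by
      have h4 : (nm p U φ ^ p) ^ (1 / p) ≤ A ^ (1 / p) :=
        ENNReal.rpow_le_rpow hnm (by positivity)
      rwa [← ENNReal.rpow_mul, mul_one_div_cancel hp0.ne', ENNReal.rpow_one] at h4
    have h3 : A * w ^ (1 / p) ≤ DD C * ENNReal.ofReal l * A ^ (1 / p) := h1.trans (by gcongr)
    have h4 : (A * w ^ (1 / p)) ^ p ≤ (DD C * ENNReal.ofReal l * A ^ (1 / p)) ^ p :=
      ENNReal.rpow_le_rpow h3 hp0.le
    rw [ENNReal.mul_rpow_of_nonneg _ _ hp0.le, ENNReal.mul_rpow_of_nonneg _ _ hp0.le,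
      ← ENNReal.rpow_mul, ← ENNReal.rpow_mul, one_div_mul_cancel hp0.ne', ENNReal.rpow_one,
      ENNReal.rpow_one] at h4
    have h5 : A ^ p = A ^ (p - 1) * A := by
      rw [← ENNReal.rpow_one A, ← ENNReal.rpow_mul, ← ENNReal.rpow_mul, ← ENNReal.rpow_add _ _ hA0 hAt]
      congr 1
      ring
    rw [h5] at h4
    have h6 : A * (A ^ (p - 1) * w) ≤ A * (DD C * ENNReal.ofReal l) ^ p := by
      calc A * (A ^ (p - 1) * w) = A ^ (p - 1) * A * w := by ring
        _ ≤ (DD C * ENNReal.ofReal l) ^ p * A := h4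
        _ = _ := by ring
    have h7 := (ENNReal.mul_le_mul_iff_right hA0 hAt).1 h6
    refine le_trans ?_ h7
    gcongr
  have h8 : s ^ (p - 1) * w ≤ (DD C * ENNReal.ofReal l) ^ p := by
    rcases eq_or_ne s 0 with h0 | h0
    · rw [h0, ENNReal.zero_rpow_of_pos hp1, zero_mul]
      exact bot_le
    · have hcont : Tendsto (fun r : ℝ≥0∞ => r ^ (p - 1) * w) (𝓝[<] s) (𝓝 (s ^ (p - 1) * w)) := by
        apply ENNReal.Tendsto.mul_const _ (Or.inr hwt)
        exact (ENNReal.continuous_rpow_const.tendsto s).mono_left nhdsWithin_le_nhds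
      have : (𝓝[<] s).NeBot := nhdsLT_neBot_of_exists_lt ⟨0, pos_iff_ne_zero.2 h0⟩
      apply le_of_tendsto hcont
      filter_upwards [self_mem_nhdsWithin] with r hr
      exact claim r hr
  rw [ENNReal.div_rpow_of_nonneg _ _ hp1.le]
  have h9 : w / ENNReal.ofReal l * (s ^ (p - 1) / ENNReal.ofReal l ^ (p - 1))
      = (s ^ (p - 1) * w) / ENNReal.ofReal l ^ p := by
    have e1 : ENNReal.ofReal l ^ p = ENNReal.ofReal l * ENNReal.ofReal l ^ (p - 1) := by
      conv_rhs => rw [← ENNReal.rpow_one (ENNReal.ofReal l)]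
      rw [← ENNReal.rpow_mul, one_mul, ← ENNReal.rpow_add _ _ hlne hlt]
      congr 1
      ring
    rw [e1, div_eq_mul_inv, div_eq_mul_inv, div_eq_mul_inv,
      ENNReal.mul_inv (Or.inl hlne) (Or.inl hlt)]
    ring
  rw [h9]
  apply ENNReal.div_le_of_le_mul
  rwa [ENNReal.mul_rpow_of_nonneg _ _ hp0.le] at h8

end

end Pool.Agent.X93.HW
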