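import Mathlib

/-! Weighted `L^p` norms. -/

set_option autoImplicit false

open MeasureTheory Set Filter Topology
open scoped ENNReal NNReal Real

namespace Pool.Agent.X93.HW

/-- the norm of `f` in `L^p(U)` -/
noncomputable def nm (p : ℝ) (U f : ℝ → ℝ) : ℝ≥0∞ :=
  eLpNorm (fun x => f x * U x ^ (1 / p)) (ENNReal.ofReal p) volume

/-- a weight -/
structure Wt (U : ℝ → ℝ) : Prop where
  meas : Measurable U
  nn : ∀ x, 0 ≤ U x
  loc : LocallyIntegrable U
  ne : ¬ (U =ᵐ[volume] 0)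

section

variable {p : ℝ} (hp : 1 < p)

include hp

lemma ofp_ne_zero : ENNReal.ofReal p ≠ 0 := by
  rw [Ne, ENNReal.ofReal_eq_zero, not_le]; linarith

lemma one_le_ofp : (1 : ℝ≥0∞) ≤ ENNReal.ofReal p := by
  rw [← ENNReal.ofReal_one]
  exact ENNReal.ofReal_le_ofReal hp.le

lemma ofp_toReal : (ENNReal.ofReal p).toReal = p := ENNReal.toReal_ofReal (by linarith)

lemma pt_eq {u : ℝ} (hu : 0 ≤ u) (a : ℝ) :
    ‖a * u ^ (1 / p)‖ₑ ^ p = ENNReal.ofReal (|a| ^ p * u) := by
  have hp0 : 0 < p := by linarith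
  rw [Real.enorm_eq_ofReal_abs, abs_mul, abs_of_nonneg (Real.rpow_nonneg hu _),
    ENNReal.ofReal_rpow_of_nonneg (by positivity) hp0.le, Real.mul_rpow (abs_nonneg _)
      (Real.rpow_nonneg hu _), ← Real.rpow_mul hu, one_div, inv_mul_cancel₀ hp0.ne', Real.rpow_one]

lemma nm_rpow {U : ℝ → ℝ} (hU : ∀ x, 0 ≤ U x) (f : ℝ → ℝ) :
    nm p U f ^ p = ∫⁻ x, ENNReal.ofReal (|f x| ^ p * U x) := by
  unfold nm
  have hp0 : 0 < p := by linarith
  rw [eLpNorm_eq_lintegral_rpow_enorm_toReal (ofp_ne_zero hp) ENNReal.ofReal_ne_top,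
    ofp_toReal hp, ← ENNReal.rpow_mul, one_div_mul_cancel hp0.ne', ENNReal.rpow_one]
  apply lintegral_congr
  intro x
  exact pt_eq hp (hU x) (f x)

lemma nm_eq {U : ℝ → ℝ} (hU : ∀ x, 0 ≤ U x) (f : ℝ → ℝ) :
    nm p U f = (∫⁻ x, ENNReal.ofReal (|f x| ^ p * U x)) ^ (1 / p) := by
  have hp0 : 0 < p := by linarith
  rw [← nm_rpow hp hU, ← ENNReal.rpow_mul, mul_one_div_cancel hp0.ne', ENNReal.rpow_one]

lemma nm_add_le {U f g : ℝ → ℝ} (hU : Measurable U) (hf : AEStronglyMeasurable f volume)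
    (hg : AEStronglyMeasurable g volume) :
    nm p U (fun x => f x + g x) ≤ nm p U f + nm p U g := by
  unfold nm
  have hu : AEStronglyMeasurable (fun x => U x ^ (1 / p)) volume :=
    (hU.pow_const _).aestronglyMeasurable
  have h := eLpNorm_add_le (hf.mul hu) (hg.mul hu) (one_le_ofp hp)
  refine le_trans (le_of_eq ?_) h
  congr 1
  ext x
  simp only [Pi.add_apply, Pi.mul_apply]
  ring

lemma nm_sub_le {U f g : ℝ → ℝ} (hU : Measurable U) (hf : AEStronglyMeasurable f volume)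
    (hg : AEStronglyMeasurable g volume) :
    nm p U (fun x => f x - g x) ≤ nm p U f + nm p U g := by
  have h := nm_add_le hp hU hf hg.neg
  have e1 : (fun x => f x + (-g) x) = fun x => f x - g x := by
    ext x; simp [sub_eq_add_neg]
  have e2 : nm p U (-g) = nm p U g := by
    unfold nm
    rw [← eLpNorm_neg]
    congr 1
    ext x
    simp
  rw [e1, e2] at h
  exact h

omit hp in
lemma nm_const_mul (U f : ℝ → ℝ) (c : ℝ) :
    nm p U (fun x => c * f x) = ENNReal.ofReal |c| * nm p U f := by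
  unfold nm
  have h := eLpNorm_const_smul (p := ENNReal.ofReal p) (μ := (volume : Measure ℝ)) c
    (fun x => f x * U x ^ (1 / p))
  rw [Real.enorm_eq_ofReal_abs] at h
  rw [← h]
  congr 1
  ext x
  simp only [Pi.smul_apply, smul_eq_mul]
  ring

omit hp in
lemma nm_mono {U f g : ℝ → ℝ} (hU : ∀ x, 0 ≤ U x) (h : ∀ᵐ x : ℝ, |f x| ≤ |g x|) :
    nm p U f ≤ nm p U g := by
  unfold nm
  apply eLpNorm_mono_ae
  filter_upwards [h] with x hx
  rw [norm_mul, norm_mul, Real.norm_eq_abs, Real.norm_eq_abs (g x)]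
  gcongr

omit hp in
lemma nm_congr {U f g : ℝ → ℝ} (h : f =ᵐ[volume] g) : nm p U f = nm p U g := by
  unfold nm
  apply eLpNorm_congr_ae
  filter_upwards [h] with x hx
  rw [hx]

/-- change of weight -/
lemma nm_weight {U k : ℝ → ℝ} (hU : ∀ x, 0 ≤ U x) (hk : ∀ x, 0 ≤ k x) (f : ℝ → ℝ) :
    nm p (fun x => U x / k x ^ p) f = nm p U (fun x => f x / k x) := by
  have hp0 : 0 < p := by linarith
  unfold nm
  congr 1
  ext x
  rw [Real.div_rpow (hU x) (Real.rpow_nonneg (hk x) _), ← Real.rpow_mul (hk x),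
    mul_one_div_cancel hp0.ne', Real.rpow_one]
  ring

/-- Fatou -/
lemma nm_fatou {U g : ℝ → ℝ} (hU : Measurable U) {f : ℕ → ℝ → ℝ}
    (hf : ∀ n, AEStronglyMeasurable (f n) volume)
    (h : ∀ᵐ x : ℝ, Tendsto (fun n => f n x) atTop (𝓝 (g x))) {B : ℕ → ℝ≥0∞} {b : ℝ≥0∞}
    (hB : ∀ n, nm p U (f n) ≤ B n) (hb : Tendsto B atTop (𝓝 b)) : nm p U g ≤ b := by
  have hu : AEStronglyMeasurable (fun x => U x ^ (1 / p)) volume :=
    (hU.pow_const _).aestronglyMeasurable
  have h1 := Lp.eLpNorm_lim_le_liminf_eLpNorm (p := ENNReal.ofReal p)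
    (fun n => (hf n).mul hu) (fun x => g x * U x ^ (1 / p)) (by
      filter_upwards [h] with x hx
      exact hx.mul_const _)
  refine h1.trans ?_
  rw [← hb.liminf_eq]
  exact liminf_le_liminf (Eventually.of_forall hB)

/-- bounded functions with bounded support have finite norm -/
lemma nm_lt_top {U : ℝ → ℝ} (hU : Wt U) {f : ℝ → ℝ} {M A : ℝ} (hM : ∀ x, |f x| ≤ M)
    (hA : ∀ x, A < |x| → f x = 0) : nm p U f < ⊤ := by
  have hp0 : 0 < p := by linarith
  have hM0 : 0 ≤ M := (abs_nonneg _).trans (hM 0)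
  rw [nm_eq hp hU.nn]
  apply ENNReal.rpow_lt_top_of_nonneg (by positivity)
  have h1 : ∫⁻ x, ENNReal.ofReal (|f x| ^ p * U x)
      ≤ ∫⁻ x in Icc (-A) A, ENNReal.ofReal (M ^ p * U x) := by
    rw [← lintegral_indicator measurableSet_Icc]
    apply lintegral_mono
    intro x
    simp only
    by_cases hx : x ∈ Icc (-A) A
    · rw [indicator_of_mem hx]
      apply ENNReal.ofReal_le_ofReal
      have := hU.nn x
      have h3 := hM x
      gcongr
    · rw [indicator_of_notMem hx, hA x, abs_zero, Real.zero_rpow hp0.ne', zero_mul,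
        ENNReal.ofReal_zero]
      by_contra hc
      exact hx (abs_le.1 (not_lt.1 hc))
  refine (lt_of_le_of_lt h1 ?_).ne
  have h2 : IntegrableOn (fun x => M ^ p * U x) (Icc (-A) A) :=
    (hU.loc.integrableOn_isCompact isCompact_Icc).const_mul _
  have h3 := h2.hasFiniteIntegral
  rw [hasFiniteIntegral_iff_ofReal] at h3
  · exact h3
  · exact Eventually.of_forall (fun x => mul_nonneg (Real.rpow_nonneg hM0 _) (hU.nn x))

end

end Pool.Agent.X93.HW
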