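import Pool.Agent.X93.HW.Lip
import Pool.Agent.X93.HW.Nm

/-! Approximation by Lipschitz functions. -/

set_option autoImplicit false

open MeasureTheory Set Filter Topology
open scoped ENNReal NNReal Real

namespace Pool.Agent.X93.HW

/-- nice functions: Lipschitz, nonnegative, with compact support -/
structure Nice (ψ : ℝ → ℝ) : Prop where
  lip : ∃ L : ℝ, ∀ a b, |ψ a - ψ b| ≤ L * |a - b|
  supp : HasCompactSupport ψ
  nn : ∀ x, 0 ≤ ψ x

lemma cont_of_lip {ψ : ℝ → ℝ} {L : ℝ} (h : ∀ a b, |ψ a - ψ b| ≤ L * |a - b|) : Continuous ψ := by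
  have hL0 := L_nonneg h
  have h : LipschitzWith (Real.toNNReal L) ψ := by
    apply LipschitzWith.of_dist_le_mul
    intro x y
    rw [Real.coe_toNNReal _ hL0, Real.dist_eq, Real.dist_eq]
    exact h x y
  exact h.continuous

lemma Nice.cont {ψ : ℝ → ℝ} (h : Nice ψ) : Continuous ψ := by
  obtain ⟨L, hL⟩ := h.lip
  exact cont_of_lip hL

lemma Nice.integrable {ψ : ℝ → ℝ} (h : Nice ψ) : Integrable ψ :=
  h.cont.integrable_of_hasCompactSupport h.supp

lemma locfin {U : ℝ → ℝ} (hU : LocallyIntegrable U) (h0 : ∀ x, 0 ≤ U x) :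
    IsLocallyFiniteMeasure (volume.withDensity (fun x => ENNReal.ofReal (U x))) := by
  refine ⟨fun x => ?_⟩
  obtain ⟨s, hs, hi⟩ := hU x
  obtain ⟨t, hts, hto, hxt⟩ := mem_nhds_iff.1 hs
  refine ⟨t, hto.mem_nhds hxt, ?_⟩
  rw [withDensity_apply _ hto.measurableSet]
  have h3 := (hi.mono_set hts).hasFiniteIntegral
  rw [hasFiniteIntegral_iff_ofReal] at h3
  · exact h3
  · exact Eventually.of_forall h0

lemma nice_zero : Nice (fun _ => 0) :=
  ⟨⟨0, fun a b => by simp⟩, HasCompactSupport.zero, fun x => le_rfl⟩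

/-- the approximation lemma -/
lemma approx {U : ℝ → ℝ} (hU : Wt U) {φ : ℝ → ℝ} {N : ℝ} (hφm : Measurable φ)
    (h0 : ∀ x, 0 ≤ φ x) (hN : ∀ x, φ x ≤ N) {K S : Set ℝ} (hK : IsCompact K) (hS : IsOpen S)
    (hKS : K ⊆ S) (hφK : ∀ x, x ∉ K → φ x = 0) {ε : ℝ} (hε : 0 < ε) :
    ∃ ψ : ℝ → ℝ, Nice ψ ∧ (∀ x, x ∉ S → ψ x = 0) ∧ (∀ x, ψ x ≤ N) ∧
      ∫⁻ x, ENNReal.ofReal |ψ x - φ x| ≤ ENNReal.ofReal ε ∧
      ∫⁻ x, ENNReal.ofReal (|ψ x - φ x| * U x) ≤ ENNReal.ofReal ε := by
  have hN0 : 0 ≤ N := (h0 0).trans (hN 0)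
  rcases K.eq_empty_or_nonempty with hKe | hKn
  · refine ⟨fun _ => 0, nice_zero, fun _ _ => rfl, fun _ => hN0, ?_, ?_⟩
    · have : ∀ x, φ x = 0 := fun x => hφK x (by rw [hKe]; exact notMem_empty x)
      simp [this]
    · have : ∀ x, φ x = 0 := fun x => hφK x (by rw [hKe]; exact notMem_empty x)
      simp [this]
  set w : ℝ → ℝ≥0∞ := fun x => ENNReal.ofReal (1 + U x) with hw
  have hwm : Measurable w := ENNReal.measurable_ofReal.comp (measurable_const.add hU.meas)
  set μ : Measure ℝ := volume.withDensity w with hμ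
  have hloc : LocallyIntegrable (fun x => 1 + U x) := (locallyIntegrable_const _).add hU.loc
  have : IsLocallyFiniteMeasure μ := locfin hloc (fun x => by have := hU.nn x; linarith)
  have hφint : MemLp φ 1 μ := by
    have hμK : μ K < ⊤ := hK.measure_lt_top
    have h1 : MemLp (K.indicator (fun _ => N)) 1 μ := by
      rw [memLp_indicator_iff_restrict hK.measurableSet]
      have : IsFiniteMeasure (μ.restrict K) := ⟨by rwa [Measure.restrict_apply_univ]⟩
      exact memLp_const N
    apply h1.mono hφm.aestronglyMeasurable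
    refine Eventually.of_forall (fun x => ?_)
    by_cases hx : x ∈ K
    · rw [indicator_of_mem hx, Real.norm_eq_abs, Real.norm_eq_abs, abs_of_nonneg (h0 x),
        abs_of_nonneg hN0]
      exact hN x
    · rw [hφK x hx]; simp
  obtain ⟨g, hg1, hg2, hg3⟩ := hφint.exist_eLpNorm_sub_le (by simp) le_rfl hε
  obtain ⟨Lg, hLg⟩ := hg2.lipschitzWith_of_hasCompactSupport hg1 (by simp)
  obtain ⟨δ, hδ, hδS⟩ := hK.exists_thickening_subset_open hS hKS
  set χ : ℝ → ℝ := fun x => max 0 (1 - Metric.infDist x K / δ) with hχ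
  set c : ℝ → ℝ := fun x => max 0 (min N (g x)) with hc
  have hχ0 : ∀ x, 0 ≤ χ x := fun x => le_max_left _ _
  have hχ1 : ∀ x, χ x ≤ 1 := fun x => max_le zero_le_one (by
    have : 0 ≤ Metric.infDist x K / δ := div_nonneg Metric.infDist_nonneg hδ.le
    linarith)
  have hc0 : ∀ x, 0 ≤ c x := fun x => le_max_left _ _
  have hcN : ∀ x, c x ≤ N := fun x => max_le hN0 (min_le_left _ _)
  have hχl : ∀ a b, |χ a - χ b| ≤ δ⁻¹ * |a - b| := by
    intro a b
    have h1 : |χ a - χ b| ≤ |(1 - Metric.infDist a K / δ) - (1 - Metric.infDist b K / δ)| := by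
      simpa using abs_max_sub_max_le_max 0 (1 - Metric.infDist a K / δ) 0
        (1 - Metric.infDist b K / δ)
    refine h1.trans ?_
    have h2 : (1 - Metric.infDist a K / δ) - (1 - Metric.infDist b K / δ)
        = δ⁻¹ * (Metric.infDist b K - Metric.infDist a K) := by ring
    rw [h2, abs_mul, abs_of_pos (inv_pos.2 hδ)]
    apply mul_le_mul_of_nonneg_left _ (inv_pos.2 hδ).le
    have h3 := (Metric.lipschitz_infDist_pt K).dist_le_mul b a
    rw [Real.dist_eq, Real.dist_eq, abs_sub_comm b a, NNReal.coe_one, one_mul] at h3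
    exact h3
  have hcl : ∀ a b, |c a - c b| ≤ Lg * |a - b| := by
    intro a b
    have h1 : |c a - c b| ≤ |min N (g a) - min N (g b)| := by
      simpa using abs_max_sub_max_le_max 0 (min N (g a)) 0 (min N (g b))
    have h2 : |min N (g a) - min N (g b)| ≤ |g a - g b| := by
      simpa using abs_min_sub_min_le_max N (g a) N (g b)
    have h3 := hLg.dist_le_mul a b
    rw [Real.dist_eq, Real.dist_eq] at h3
    exact h1.trans (h2.trans h3)
  have hclose : ∀ x, |χ x * c x - φ x| ≤ |φ x - g x| := by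
    intro x
    by_cases hx : x ∈ K
    · have e1 : χ x = 1 := by
        simp only [hχ]
        rw [Metric.infDist_zero_of_mem hx]
        simp
      rw [e1, one_mul]
      have e2 : φ x = max 0 (min N (φ x)) := by
        rw [min_eq_right (hN x), max_eq_right (h0 x)]
      have h1 : |c x - max 0 (min N (φ x))| ≤ |min N (g x) - min N (φ x)| := by
        simpa using abs_max_sub_max_le_max 0 (min N (g x)) 0 (min N (φ x))
      have h2 : |min N (g x) - min N (φ x)| ≤ |g x - φ x| := by
        simpa using abs_min_sub_min_le_max N (g x) N (φ x)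
      rw [← e2] at h1
      rw [abs_sub_comm (φ x)]
      exact h1.trans h2
    · rw [hφK x hx, sub_zero, zero_sub, abs_neg, abs_of_nonneg (mul_nonneg (hχ0 x) (hc0 x))]
      calc χ x * c x ≤ 1 * c x := mul_le_mul_of_nonneg_right (hχ1 x) (hc0 x)
        _ = c x := one_mul _
        _ ≤ |g x| := max_le (abs_nonneg _) ((min_le_right _ _).trans (le_abs_self _))
  have htot : ∫⁻ x, ENNReal.ofReal (|χ x * c x - φ x| * (1 + U x)) ≤ ENNReal.ofReal ε := by
    refine le_trans ?_ hg3
    rw [eLpNorm_one_eq_lintegral_enorm, hμ, lintegral_withDensity_eq_lintegral_mul₀]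
    · apply lintegral_mono
      intro x
      simp only [Pi.mul_apply, Pi.sub_apply, hw]
      rw [mul_comm (ENNReal.ofReal (1 + U x)), Real.enorm_eq_ofReal_abs,
        ← ENNReal.ofReal_mul (abs_nonneg _)]
      apply ENNReal.ofReal_le_ofReal
      have := hU.nn x
      have h3 := hclose x
      gcongr
    · exact hwm.aemeasurable
    · exact (hφm.sub hg2.continuous.measurable).enorm.aemeasurable
  refine ⟨fun x => χ x * c x, ⟨⟨Lg + N * δ⁻¹, ?_⟩, ?_, ?_⟩, ?_, ?_, ?_, ?_⟩
  · intro a b
    have h1 : χ a * c a - χ b * c b = χ a * (c a - c b) + c b * (χ a - χ b) := by ring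
    rw [h1]
    calc |χ a * (c a - c b) + c b * (χ a - χ b)|
        ≤ |χ a * (c a - c b)| + |c b * (χ a - χ b)| := abs_add_le _ _
      _ = χ a * |c a - c b| + c b * |χ a - χ b| := by
          rw [abs_mul, abs_mul, abs_of_nonneg (hχ0 a), abs_of_nonneg (hc0 b)]
      _ ≤ 1 * (Lg * |a - b|) + N * (δ⁻¹ * |a - b|) := by
          have e1 := hχ1 a
          have e2 := hcl a b
          have e3 := hcN b
          have e4 := hχl a b
          have e5 := hχ0 a
          have e6 := hc0 b
          gcongr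
      _ = (Lg + N * δ⁻¹) * |a - b| := by ring
  · apply hg1.mono
    intro x hx
    rw [Function.mem_support] at hx ⊢
    intro hgx
    apply hx
    simp only [hc, hgx]
    rw [min_eq_right hN0, max_self, mul_zero]
  · exact fun x => mul_nonneg (hχ0 x) (hc0 x)
  · intro x hx
    have e1 : χ x = 0 := by
      simp only [hχ]
      apply max_eq_left
      have h2 : δ ≤ Metric.infDist x K := by
        by_contra hlt
        apply hx
        apply hδS
        exact (Metric.mem_thickening_iff_infDist_lt hKn).2 (not_le.1 hlt)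
      rw [sub_nonpos, le_div_iff₀ hδ]
      linarith
    simp only [e1, zero_mul]
  · intro x
    calc χ x * c x ≤ 1 * c x := mul_le_mul_of_nonneg_right (hχ1 x) (hc0 x)
      _ = c x := one_mul _
      _ ≤ N := hcN x
  · refine le_trans (lintegral_mono (fun x => ?_)) htot
    apply ENNReal.ofReal_le_ofReal
    have := hU.nn x
    nlinarith [abs_nonneg (χ x * c x - φ x)]
  · refine le_trans (lintegral_mono (fun x => ?_)) htot
    apply ENNReal.ofReal_le_ofReal
    have := hU.nn x
    nlinarith [abs_nonneg (χ x * c x - φ x)]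

end Pool.Agent.X93.HW
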