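import Pool.Agent.X93.HW.Cheap

/-! The cases of a free mass at infinity or at a point. -/

set_option autoImplicit false

open MeasureTheory Set Filter Topology
open scoped ENNReal NNReal Real

namespace Pool.Agent.X93.HW

/-- the inequality for functions with mean zero -/
def Adm (p : ℝ) (U : ℝ → ℝ) (C : ℝ≥0) : Prop :=
  ∀ f g : ℝ → ℝ, Integrable f → ∫ x, f x = 0 → HT f g → nm p U g ≤ C * nm p U f

/-- the inequality for all integrable functions -/
def Bd (p : ℝ) (U : ℝ → ℝ) (C : ℝ≥0) : Prop :=
  ∀ f g : ℝ → ℝ, Integrable f → HT f g → nm p U g ≤ C * nm p U f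

/-- the Hilbert transform of a Lipschitz function -/
noncomputable def Hn (ψ : ℝ → ℝ) (x : ℝ) : ℝ := 1 / π * ∫ y, JJ ψ x y

lemma Nice.tends {ψ : ℝ → ℝ} (h : Nice ψ) (x : ℝ) :
    Tendsto (fun δ => tr ψ δ x) (𝓝[>] 0) (𝓝 (Hn ψ x)) := by
  obtain ⟨L, hL⟩ := h.lip
  exact lip_ht hL h.integrable x

lemma Nice.ht {ψ : ℝ → ℝ} (h : Nice ψ) : HT ψ (Hn ψ) := Eventually.of_forall h.tends

lemma Nice.far_eq {ψ : ℝ → ℝ} (h : Nice ψ) {x r : ℝ} (hr : 0 < r)
    (hz : ∀ y, |y - x| < r → ψ y = 0) : Hn ψ x = 1 / π * ∫ y, ψ y / (x - y) :=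
  tendsto_nhds_unique (h.tends x) (far hr hz)

lemma integrable_far {f : ℝ → ℝ} (hf : Integrable f) {x r : ℝ} (hr : 0 < r)
    (hz : ∀ y, |y - x| < r → f y = 0) : Integrable (fun y => f y / (x - y)) := by
  have h1 : Integrable (fun y => r⁻¹ * ‖f y‖) := hf.norm.const_mul _
  apply h1.mono'
  · have hm : Measurable (fun y : ℝ => (x - y)⁻¹) := (measurable_const.sub measurable_id).inv
    simp_rw [div_eq_mul_inv]
    exact hf.aestronglyMeasurable.mul hm.aestronglyMeasurable
  · refine Eventually.of_forall (fun y => ?_)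
    rw [norm_div, div_eq_inv_mul, Real.norm_eq_abs (x - y), abs_sub_comm]
    by_cases hy : |y - x| < r
    · rw [hz y hy]; simp
    · have := not_lt.1 hy
      gcongr

lemma Nice.far_le {ψ : ℝ → ℝ} (h : Nice ψ) {x r : ℝ} (hr : 0 < r)
    (hz : ∀ y, |y - x| < r → ψ y = 0) : |Hn ψ x| ≤ 1 / π * ((∫ y, ψ y) / r) := by
  have hpi := Real.pi_pos
  rw [h.far_eq hr hz, abs_mul, abs_of_pos (by positivity : 0 < 1 / π)]
  gcongr
  refine abs_integral_le_integral_abs.trans ?_
  rw [← integral_div]
  apply integral_mono (integrable_far h.integrable hr hz).abs (h.integrable.div_const r)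
  intro y
  simp only
  rw [abs_div, abs_of_nonneg (h.nn y), abs_sub_comm]
  by_cases hy : |y - x| < r
  · rw [hz y hy]; simp
  · have h1 := not_lt.1 hy
    exact div_le_div_of_nonneg_left (h.nn y) hr h1

lemma tendsto_bound (C : ℝ≥0) (a b : ℝ≥0∞) (hb : b ≠ ∞) :
    Tendsto (fun n : ℕ => C * (a + b * ENNReal.ofReal (1 / ((n : ℝ) + 1)))) atTop (𝓝 (C * a)) := by
  apply ENNReal.Tendsto.const_mul _ (Or.inr ENNReal.coe_ne_top)
  have h1 : Tendsto (fun n : ℕ => ENNReal.ofReal (1 / ((n : ℝ) + 1))) atTop (𝓝 0) := by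
    have := ENNReal.tendsto_ofReal tendsto_one_div_add_atTop_nhds_zero_nat
    rwa [ENNReal.ofReal_zero] at this
  have h2 : Tendsto (fun n : ℕ => b * ENNReal.ofReal (1 / ((n : ℝ) + 1))) atTop (𝓝 (b * 0)) :=
    ENNReal.Tendsto.const_mul h1 (Or.inr hb)
  rw [mul_zero] at h2
  have h3 := (tendsto_const_nhds (x := a)).add h2
  rwa [add_zero] at h3

section

variable {p : ℝ} (hp : 1 < p) {U : ℝ → ℝ} (hU : Wt U) {C : ℝ≥0} (hadm : Adm p U C)

include hp hU hadm in
/-- correcting the mean by a nice function of small norm -/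
lemma adm_corr {f g ψ : ℝ → ℝ} (hf : Integrable f) (hfg : HT f g) (hψ : Nice ψ)
    (h1 : ∫ x, ψ x = 1) {ε : ℝ} (hε : nm p U ψ ≤ ENNReal.ofReal ε) :
    nm p U (fun x => g x - (∫ y, f y) * Hn ψ x)
      ≤ C * (nm p U f + ENNReal.ofReal |∫ y, f y| * ENNReal.ofReal ε) := by
  set m : ℝ := ∫ y, f y with hm
  have hT : HT (fun y => f y - m * ψ y) (fun x => g x - m * Hn ψ x) :=
    hfg.sub_mul hψ.ht hf hψ.integrable m
  have hint : Integrable (fun y => f y - m * ψ y) := hf.sub (hψ.integrable.const_mul m)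
  have hz : ∫ y, (f y - m * ψ y) = 0 := by
    rw [integral_sub hf (hψ.integrable.const_mul m), integral_const_mul, h1, mul_one, hm, sub_self]
  refine (hadm _ _ hint hz hT).trans ?_
  gcongr
  have h2 := nm_sub_le hp hU.meas hf.aestronglyMeasurable
    ((hψ.integrable.const_mul m).aestronglyMeasurable)
  refine h2.trans ?_
  rw [nm_const_mul]
  gcongr

include hp hU hadm in
/-- a free mass at infinity -/
theorem caseA (hA : ∀ n : ℕ, ∫⁻ x in {x : ℝ | (n : ℝ) < |x|}, sg p U x = ∞) : Bd p U C := by
  intro f g hf hfg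
  have hch : ∀ n : ℕ, ∃ ψ : ℝ → ℝ, Nice ψ ∧ (∀ x, x ∉ {x : ℝ | (n : ℝ) < |x|} → ψ x = 0) ∧
      ∫ x, ψ x = 1 ∧ nm p U ψ ≤ ENNReal.ofReal (1 / ((n : ℝ) + 1)) := fun n =>
    cheap hp hU (isOpen_lt continuous_const continuous_abs) (hA n) (by positivity)
  choose ψ hψ hψS hψ1 hψn using hch
  apply nm_fatou (f := fun n x => g x - (∫ y, f y) * Hn (ψ n) x) hp hU.meas _ _
    (fun n => adm_corr hp hU hadm hf hfg (hψ n) (hψ1 n) (hψn n))
    (tendsto_bound C (nm p U f) _ ENNReal.ofReal_ne_top)
  · intro n
    exact (hfg.aesm hf).sub (((hψ n).ht.aesm (hψ n).integrable).const_mul _)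
  · refine Eventually.of_forall (fun x => ?_)
    have hlim : Tendsto (fun n : ℕ => Hn (ψ n) x) atTop (𝓝 0) := by
      have h0 : Tendsto (fun n : ℕ => 1 / π * (1 / ((n : ℝ) - |x|))) atTop (𝓝 0) := by
        have h2 : Tendsto (fun n : ℕ => (n : ℝ) - |x|) atTop atTop :=
          tendsto_atTop_add_const_right _ _ tendsto_natCast_atTop_atTop
        have h3 := (h2.inv_tendsto_atTop).const_mul (1 / π)
        rw [mul_zero] at h3
        refine h3.congr (fun n => ?_)
        simp
      apply squeeze_zero_norm' _ h0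
      have hev : ∀ᶠ n : ℕ in atTop, |x| < n := by
        obtain ⟨n0, hn0⟩ := exists_nat_gt |x|
        filter_upwards [eventually_ge_atTop n0] with n hn
        exact lt_of_lt_of_le hn0 (by exact_mod_cast hn)
      filter_upwards [hev] with n hn
      have h4 := (hψ n).far_le (x := x) (r := (n : ℝ) - |x|) (by linarith) (by
        intro y hy
        apply hψS
        intro hc
        have hc' : (n : ℝ) < |y| := hc
        have := abs_sub_abs_le_abs_sub y x
        linarith)
      rw [hψ1 n] at h4
      rw [Real.norm_eq_abs]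
      exact h4
    have h5 := (hlim.const_mul (∫ y, f y)).const_sub (g x)
    rwa [mul_zero, sub_zero] at h5

omit hp in
lemma nm_eq_of_abs {V f g : ℝ → ℝ} (hV : ∀ x, 0 ≤ V x) (h : ∀ᵐ x : ℝ, |f x| = |g x|) :
    nm p V f = nm p V g :=
  le_antisymm (nm_mono hV (h.mono fun _ hx => hx.le)) (nm_mono hV (h.mono fun _ hx => hx.ge))

lemma ae_ne (a : ℝ) : ∀ᵐ x : ℝ, x ≠ a := by
  rw [ae_iff]; simp

lemma frontier_null (x0 δ : ℝ) : volume (frontier {y : ℝ | δ < |y - x0|}) = 0 := by
  have h1 : frontier {y : ℝ | δ < |y - x0|} ⊆ {x0 - δ, x0 + δ} := by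
    intro y hy
    have h2 := frontier_lt_subset_eq (continuous_const (y := δ))
      (by fun_prop : Continuous fun y : ℝ => |y - x0|) hy
    have h3 : δ = |y - x0| := h2
    rcases abs_cases (y - x0) with ⟨h4, _⟩ | ⟨h4, _⟩
    · right
      rw [mem_singleton_iff]; linarith
    · left; linarith
  exact measure_mono_null h1 (by
    have : ({x0 - δ, x0 + δ} : Set ℝ).Finite := by simp
    exact this.measure_zero volume)

include hp hU hadm in
/-- one cut-off -/
lemma caseB_step (x0 : ℝ) (hB : ∀ n : ℕ, ∫⁻ x in {x : ℝ | |x - x0| < 1 / ((n : ℝ) + 1)}, sg p U x = ∞)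
    {F H : ℝ → ℝ} (hF : Integrable F) (hFH : HT F H) {δ : ℝ} (hδ : 0 < δ)
    (hz : ∀ y, |y - x0| ≤ δ → F y = 0) :
    nm p U (fun x => H x / (x - x0)) ≤ C * nm p U (fun x => F x / (x - x0)) := by
  set f : ℝ → ℝ := fun y => F y / (y - x0) with hf
  have hfi : Integrable f := by
    have h1 : Integrable (fun y => δ⁻¹ * ‖F y‖) := hF.norm.const_mul _
    apply h1.mono'
    · have hm : Measurable (fun y : ℝ => (y - x0)⁻¹) := (measurable_id.sub measurable_const).inv
      simp only [hf]
      simp_rw [div_eq_mul_inv]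
      exact hF.aestronglyMeasurable.mul hm.aestronglyMeasurable
    · refine Eventually.of_forall (fun y => ?_)
      simp only [hf]
      rw [norm_div, div_eq_inv_mul, Real.norm_eq_abs (y - x0)]
      by_cases hy : |y - x0| ≤ δ
      · rw [hz y hy]; simp
      · have := (not_le.1 hy).le
        gcongr
  have hfF : (fun y => (y - x0) * f y) = F := by
    ext y
    by_cases hy : y = x0
    · rw [hy, sub_self, zero_mul, hz x0 (by simpa using hδ.le)]
    · have : y - x0 ≠ 0 := sub_ne_zero.2 hy
      simp only [hf]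
      field_simp
  have hT : HT f (fun x => (H x + 1 / π * ∫ y, f y) / (x - x0)) := by
    apply HT.div_sub x0 _ hfi
    rwa [hfF]
  have hch : ∀ n : ℕ, ∃ ψ : ℝ → ℝ, Nice ψ ∧
      (∀ x, x ∉ {x : ℝ | |x - x0| < 1 / ((n : ℝ) + 1)} → ψ x = 0) ∧
      ∫ x, ψ x = 1 ∧ nm p U ψ ≤ ENNReal.ofReal (1 / ((n : ℝ) + 1)) := fun n =>
    cheap hp hU (isOpen_lt (by fun_prop) continuous_const) (hB n) (by positivity)
  choose ψ hψ hψS hψ1 hψn using hch
  apply nm_fatou (f := fun n x => (H x + 1 / π * ∫ y, f y) / (x - x0) - (∫ y, f y) * Hn (ψ n) x)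
    hp hU.meas _ _
    (fun n => adm_corr hp hU hadm hfi hT (hψ n) (hψ1 n) (hψn n))
    (tendsto_bound C (nm p U f) _ ENNReal.ofReal_ne_top)
  · intro n
    exact (hT.aesm hfi).sub (((hψ n).ht.aesm (hψ n).integrable).const_mul _)
  · filter_upwards [ae_ne x0] with x hx
    have hpos : 0 < |x - x0| := abs_pos.2 (sub_ne_zero.2 hx)
    have hx0 : x - x0 ≠ 0 := sub_ne_zero.2 hx
    have hlim : Tendsto (fun n : ℕ => Hn (ψ n) x) atTop (𝓝 (1 / π * (1 / (x - x0)))) := by
      rw [tendsto_iff_norm_sub_tendsto_zero]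
      have h0 : Tendsto (fun n : ℕ => 1 / π * (2 / |x - x0| ^ 2 * (1 / ((n : ℝ) + 1)))) atTop
          (𝓝 0) := by
        have := (tendsto_one_div_add_atTop_nhds_zero_nat (𝕜 := ℝ)).const_mul (2 / |x - x0| ^ 2)
        rw [mul_zero] at this
        have := this.const_mul (1 / π)
        rwa [mul_zero] at this
      apply squeeze_zero' (Eventually.of_forall (fun n => norm_nonneg _)) _ h0
      have hev : ∀ᶠ n : ℕ in atTop, 1 / ((n : ℝ) + 1) < |x - x0| / 2 :=
        (tendsto_one_div_add_atTop_nhds_zero_nat (𝕜 := ℝ)).eventually_lt_const (by positivity)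
      filter_upwards [hev] with n hn
      have hsupp : ∀ y, ψ n y ≠ 0 → |y - x0| < 1 / ((n : ℝ) + 1) := by
        intro y hy
        by_contra hc
        exact hy (hψS n y hc)
      have hzr : ∀ y, |y - x| < |x - x0| / 2 → ψ n y = 0 := by
        intro y hy
        by_contra hc
        have h1 := hsupp y hc
        have h2 : |x - x0| ≤ |y - x| + |y - x0| := by
          have := abs_sub_le x y x0
          rw [abs_sub_comm x y] at this
          exact this
        linarith
      rw [(hψ n).far_eq (by positivity) hzr, ← mul_sub, norm_mul, Real.norm_eq_abs,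
        Real.norm_eq_abs, abs_of_pos (by positivity : 0 < 1 / π)]
      gcongr
      have hI := integrable_far (hψ n).integrable (by positivity : 0 < |x - x0| / 2) hzr
      have h3 : (1 / (x - x0) : ℝ) = ∫ y, ψ n y * (1 / (x - x0)) := by
        rw [integral_mul_const, hψ1 n, one_mul]
      rw [h3, ← integral_sub hI ((hψ n).integrable.mul_const _)]
      refine abs_integral_le_integral_abs.trans ?_
      have h4 : 2 / |x - x0| ^ 2 * (1 / ((n : ℝ) + 1))
          = ∫ y, ψ n y * (2 / |x - x0| ^ 2 * (1 / ((n : ℝ) + 1))) := by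
        rw [integral_mul_const, hψ1 n, one_mul]
      rw [h4]
      apply integral_mono (hI.sub ((hψ n).integrable.mul_const _)).abs
        ((hψ n).integrable.mul_const _)
      intro y
      simp only [Pi.sub_apply]
      by_cases hy : ψ n y = 0
      · simp [hy]
      · have h5 := hsupp y hy
        have h6 : |x - x0| / 2 ≤ |x - y| := by
          by_contra hc
          apply hy
          apply hzr
          rw [abs_sub_comm]
          exact not_le.1 hc
        have hxy : x - y ≠ 0 := by
          intro h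
          rw [h, abs_zero] at h6
          linarith
        have h7 : ψ n y / (x - y) - ψ n y * (1 / (x - x0))
            = ψ n y * ((y - x0) / ((x - y) * (x - x0))) := by
          field_simp
          ring
        rw [h7, abs_mul, abs_of_nonneg ((hψ n).nn y), abs_div, abs_mul]
        apply mul_le_mul_of_nonneg_left _ ((hψ n).nn y)
        calc |y - x0| / (|x - y| * |x - x0|) ≤ (1 / ((n : ℝ) + 1)) / (|x - x0| / 2 * |x - x0|) := by
              gcongr
          _ = 2 / |x - x0| ^ 2 * (1 / ((n : ℝ) + 1)) := by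
              field_simp
    have h5 := (hlim.const_mul (∫ y, f y)).const_sub ((H x + 1 / π * ∫ y, f y) / (x - x0))
    convert h5 using 2
    field_simp
    ring

include hp hU hadm in
/-- a free mass at a point -/
theorem caseB (x0 : ℝ) (hB : ∀ n : ℕ, ∫⁻ x in {x : ℝ | |x - x0| < 1 / ((n : ℝ) + 1)}, sg p U x = ∞) :
    Bd p (fun x => U x / |x - x0| ^ p) C := by
  intro F H hF hFH
  have hW : ∀ f : ℝ → ℝ, nm p (fun x => U x / |x - x0| ^ p) f
      = nm p U (fun x => f x / (x - x0)) := by
    intro f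
    rw [nm_weight hp hU.nn (fun x => abs_nonneg (x - x0))]
    apply nm_eq_of_abs hU.nn
    refine Eventually.of_forall (fun x => ?_)
    rw [abs_div, abs_div, abs_abs]
  have hWm : Measurable (fun x => U x / |x - x0| ^ p) := by
    apply hU.meas.div
    apply Measurable.pow_const
    fun_prop
  have hWn : ∀ x, 0 ≤ U x / |x - x0| ^ p := fun x =>
    div_nonneg (hU.nn x) (Real.rpow_nonneg (abs_nonneg _) _)
  classical
  set dl : ℕ → ℝ := fun n => 1 / ((n : ℝ) + 1) with hdl
  have hdpos : ∀ n, 0 < dl n := fun n => by simp only [hdl]; positivity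
  set S : ℕ → Set ℝ := fun n => {y : ℝ | dl n < |y - x0|} with hS
  have hSm : ∀ n, MeasurableSet (S n) := fun n => meas_set _ _
  have hT := fun n => hFH.restrict hF (hSm n) (frontier_null x0 (dl n))
  apply nm_fatou hp hWm (f := fun n x => if x ∈ S n then H x - 1 / π * ∫ y in (S n)ᶜ, F y / (x - y)
      else 1 / π * ∫ y in S n, F y / (x - y)) _ _
      (B := fun _ => C * nm p (fun x => U x / |x - x0| ^ p) F) _ tendsto_const_nhds
  · intro n
    exact (hT n).aesm (hF.indicator (hSm n))
  · filter_upwards [ae_ne x0] with x hx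
    have hpos : 0 < |x - x0| := abs_pos.2 (sub_ne_zero.2 hx)
    have hdl0 : Tendsto dl atTop (𝓝 0) := tendsto_one_div_add_atTop_nhds_zero_nat
    have hdl1 : Tendsto dl atTop (𝓝[>] 0) := by
      rw [tendsto_nhdsWithin_iff]
      exact ⟨hdl0, Eventually.of_forall hdpos⟩
    have hlim : Tendsto (fun n => 1 / π * ∫ y in (S n)ᶜ, F y / (x - y)) atTop (𝓝 0) := by
      have h1 : Tendsto (fun n => ∫ y in (S n)ᶜ, |F y|) atTop (𝓝 0) := by
        have h2 := (lim_int hF.abs x0).comp hdl1
        have h3 := h2.const_sub (∫ y, |F y|)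
        rw [sub_self] at h3
        refine h3.congr (fun n => ?_)
        have h4 := integral_add_compl (hSm n) hF.abs
        simp only [Function.comp_apply]
        change (∫ y, |F y|) - ∫ y in S n, |F y| = _
        linarith
      have h5 : Tendsto (fun n => 1 / π * (2 / |x - x0| * ∫ y in (S n)ᶜ, |F y|)) atTop (𝓝 0) := by
        have := (h1.const_mul (2 / |x - x0|)).const_mul (1 / π)
        simpa using this
      apply squeeze_zero_norm' _ h5
      filter_upwards [hdl0.eventually_lt_const (by positivity : 0 < |x - x0| / 2)] with n hn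
      rw [norm_mul, Real.norm_eq_abs, abs_of_pos (by positivity : 0 < 1 / π)]
      gcongr
      rw [← integral_const_mul]
      refine (norm_integral_le_integral_norm _).trans ?_
      apply setIntegral_mono_on
      · have hz : ∀ y, |y - x| < |x - x0| / 2 → (S n)ᶜ.indicator F y = 0 := by
          intro y hy
          apply indicator_of_notMem
          rw [notMem_compl_iff]
          change dl n < |y - x0|
          have := abs_sub_le x y x0
          rw [abs_sub_comm x y] at this
          linarith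
        have h6 := integrable_far (hF.indicator (hSm n).compl)
          (by positivity : 0 < |x - x0| / 2) hz
        have h7 : (fun y => (S n)ᶜ.indicator F y / (x - y))
            = (S n)ᶜ.indicator (fun y => F y / (x - y)) := by
          ext y
          by_cases hy : y ∈ (S n)ᶜ
          · simp [hy]
          · simp [hy]
        rw [h7, integrable_indicator_iff (hSm n).compl] at h6
        exact h6.norm
      · exact (hF.abs.const_mul _).integrableOn
      · exact (hSm n).compl
      · intro y hy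
        have hy' : ¬ dl n < |y - x0| := hy
        have h8 : |x - x0| / 2 ≤ |x - y| := by
          have := abs_sub_le x y x0
          linarith [not_lt.1 hy']
        rw [norm_div, Real.norm_eq_abs, Real.norm_eq_abs]
        calc |F y| / |x - y| ≤ |F y| / (|x - x0| / 2) := by gcongr
          _ = 2 / |x - x0| * |F y| := by field_simp
    have h9 := hlim.const_sub (H x)
    rw [sub_zero] at h9
    apply h9.congr'
    filter_upwards [hdl0.eventually_lt_const hpos] with n hn
    rw [if_pos]
    exact hn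
  · intro n
    have h10 : nm p (fun x => U x / |x - x0| ^ p) ((S n).indicator F)
        ≤ nm p (fun x => U x / |x - x0| ^ p) F := by
      apply nm_mono hWn
      refine Eventually.of_forall (fun x => ?_)
      by_cases hx : x ∈ S n
      · rw [indicator_of_mem hx]
      · rw [indicator_of_notMem hx, abs_zero]; exact abs_nonneg _
    refine le_trans ?_ (by gcongr : (C : ℝ≥0∞) * nm p (fun x => U x / |x - x0| ^ p)
      ((S n).indicator F) ≤ C * nm p (fun x => U x / |x - x0| ^ p) F)
    rw [hW, hW]
    refine caseB_step hp hU hadm x0 hB (hF.indicator (hSm n)) (hT n) (hdpos n) ?_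
    intro y hy
    apply indicator_of_notMem
    exact not_lt.2 hy

end

end Pool.Agent.X93.HW
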