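import Pool.Agent.X93.HW.CaseAB

/-! The case of an integrable dual weight. -/

set_option autoImplicit false

open MeasureTheory Set Filter Topology
open scoped ENNReal NNReal Real

namespace Pool.Agent.X93.HW

/-- the tent centred at `a` -/
noncomputable def tent (a x : ℝ) : ℝ := max 0 (1 - |x - a|)

lemma tent_nonneg (a x : ℝ) : 0 ≤ tent a x := le_max_left _ _

lemma tent_le_one (a x : ℝ) : tent a x ≤ 1 :=
  max_le zero_le_one (by linarith [abs_nonneg (x - a)])

lemma tent_zero {a x : ℝ} (h : 1 ≤ |x - a|) : tent a x = 0 := max_eq_left (by linarith)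

lemma tent_lip (a x y : ℝ) : |tent a x - tent a y| ≤ 1 * |x - y| := by
  unfold tent
  have h1 : |max 0 (1 - |x - a|) - max 0 (1 - |y - a|)| ≤ |(1 - |x - a|) - (1 - |y - a|)| := by
    simpa using abs_max_sub_max_le_max 0 (1 - |x - a|) 0 (1 - |y - a|)
  refine h1.trans ?_
  rw [show (1 - |x - a|) - (1 - |y - a|) = -(|x - a| - |y - a|) by ring, abs_neg, one_mul]
  have := abs_abs_sub_abs_le_abs_sub (x - a) (y - a)
  rwa [show x - a - (y - a) = x - y by ring] at this

lemma tent_nice (a : ℝ) : Nice (tent a) := by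
  refine ⟨⟨1, tent_lip a⟩, ?_, tent_nonneg a⟩
  apply HasCompactSupport.intro (isCompact_Icc (a := a - 1) (b := a + 1))
  intro x hx
  apply tent_zero
  by_contra hc
  apply hx
  have := abs_lt.1 (not_le.1 hc)
  exact ⟨by linarith [this.1], by linarith [this.2]⟩

lemma tent_int (a : ℝ) : ∫ x, tent a x = 1 := by
  have h1 : ∫ x, tent a x = ∫ x, tent 0 x := by
    have := integral_sub_right_eq_self (μ := (volume : Measure ℝ)) (tent 0) a
    rw [← this]
    congr 1
    ext x
    unfold tent
    rw [sub_zero]
  have h2 : ∫ x, tent 0 x = ∫ x in Icc (-1 : ℝ) 1, tent 0 x := by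
    symm
    apply setIntegral_eq_integral_of_forall_compl_eq_zero
    intro x hx
    apply tent_zero
    by_contra hc
    apply hx
    have := abs_lt.1 (not_le.1 hc)
    exact ⟨by linarith [this.1], by linarith [this.2]⟩
  rw [h1, h2, integral_Icc_eq_integral_Ioc, ← intervalIntegral.integral_of_le (by norm_num),
    ← intervalIntegral.integral_add_adjacent_intervals (b := 0)
      ((tent_nice 0).cont.intervalIntegrable _ _) ((tent_nice 0).cont.intervalIntegrable _ _)]
  have h3 : ∫ x in (-1 : ℝ)..0, tent 0 x = ∫ x in (-1 : ℝ)..0, (1 + x) := by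
    apply intervalIntegral.integral_congr
    intro x hx
    rw [uIcc_of_le (by norm_num)] at hx
    unfold tent
    rw [sub_zero, abs_of_nonpos hx.2, sub_neg_eq_add]
    exact max_eq_right (by linarith [hx.1])
  have h4 : ∫ x in (0 : ℝ)..1, tent 0 x = ∫ x in (0 : ℝ)..1, (1 - x) := by
    apply intervalIntegral.integral_congr
    intro x hx
    rw [uIcc_of_le (by norm_num)] at hx
    unfold tent
    rw [sub_zero, abs_of_nonneg hx.1]
    exact max_eq_right (by linarith [hx.2])
  rw [h3, h4, intervalIntegral.integral_add (by simp) (by simp),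
    intervalIntegral.integral_sub (by simp) (by simp)]
  simp
  norm_num

/-- the denominator -/
noncomputable def kk (x : ℝ) : ℝ := Real.sqrt (1 + x ^ 2)

lemma kk_pos (x : ℝ) : 0 < kk x := Real.sqrt_pos.2 (by positivity)
lemma kk_ge_one (x : ℝ) : 1 ≤ kk x := Real.one_le_sqrt.2 (by nlinarith [sq_nonneg x])
lemma abs_le_kk (x : ℝ) : |x| ≤ kk x := Real.abs_le_sqrt (by linarith)
lemma kk_sq (x : ℝ) : kk x ^ 2 = 1 + x ^ 2 := Real.sq_sqrt (by positivity)
lemma kk_le (x : ℝ) : kk x ≤ 1 + |x| := by
  rw [kk, Real.sqrt_le_left (by positivity)]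
  nlinarith [sq_abs x, abs_nonneg x]

lemma Hn_tent_le (x : ℝ) : |Hn (tent 0) x| ≤ 6 / kk x ∧ |x * Hn (tent 0) x - 1 / π| ≤ 6 / kk x := by
  have hpi := Real.pi_gt_three
  have hpi0 : 0 < 1 / π := by positivity
  have hpi3 : 1 / π ≤ 1 / 3 := by
    apply one_div_le_one_div_of_le (by norm_num) hpi.le
  have hk := kk_pos x
  by_cases hx : |x| ≤ 2
  · have h1 : |Hn (tent 0) x| ≤ 1 := by
      have h2 := lip_bound (tent_lip 0) (tent_nice 0).integrable x
      have h3 : ∫ y, |tent 0 y| = 1 := by
        rw [← tent_int 0]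
        congr 1
        ext y
        exact abs_of_nonneg (tent_nonneg 0 y)
      rw [h3] at h2
      unfold Hn
      refine h2.trans ?_
      linarith
    have hk3 : kk x ≤ 3 := (kk_le x).trans (by linarith)
    have h4 : (2 : ℝ) ≤ 6 / kk x := by
      rw [le_div_iff₀ hk]; linarith
    constructor
    · linarith
    · have h5 : |x * Hn (tent 0) x - 1 / π| ≤ |x| * |Hn (tent 0) x| + 1 / π := by
        have := abs_sub (x * Hn (tent 0) x) (1 / π)
        rwa [abs_mul, abs_of_pos hpi0] at this
      -- sharper bound is needed here: `|x| ≤ 2`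
      have h6 : |x| * |Hn (tent 0) x| ≤ |x| * 1 := by gcongr
      have h7 : |x| + 1 / 3 ≤ 6 / kk x := by
        rw [le_div_iff₀ hk]
        have := kk_le x
        have h8 : (|x| + 1 / 3) * kk x ≤ (2 + 1 / 3) * kk x := by gcongr
        have h9 : kk x ≤ 9 / 4 := by
          rw [kk, Real.sqrt_le_left (by norm_num)]
          have : x ^ 2 ≤ 4 := by
            rw [← sq_abs]; nlinarith [abs_nonneg x]
          linarith
        linarith
      linarith
  · have hx' := not_le.1 hx
    have hz : ∀ y, |y - x| < |x| - 1 → tent 0 y = 0 := by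
      intro y hy
      apply tent_zero
      rw [sub_zero]
      have := abs_sub_abs_le_abs_sub x y
      rw [abs_sub_comm x y] at this
      linarith
    have hr : 0 < |x| - 1 := by linarith
    have hkx : 1 / (|x| - 1) ≤ 3 / kk x := by
      rw [div_le_div_iff₀ hr hk]
      have := kk_le x
      linarith
    have h1 := (tent_nice 0).far_le hr hz
    rw [tent_int] at h1
    constructor
    · refine h1.trans ?_
      calc 1 / π * (1 / (|x| - 1)) ≤ 1 / 3 * (3 / kk x) := by gcongr
        _ ≤ 6 / kk x := by
          rw [← mul_div_assoc]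
          gcongr
          norm_num
    · rw [(tent_nice 0).far_eq hr hz]
      have hI := integrable_far (tent_nice 0).integrable hr hz
      have h2 : x * (1 / π * ∫ y, tent 0 y / (x - y)) - 1 / π
          = 1 / π * ∫ y, (x * (tent 0 y / (x - y)) - tent 0 y) := by
        rw [integral_sub (hI.const_mul x) (tent_nice 0).integrable, integral_const_mul, tent_int]
        ring
      rw [h2, abs_mul, abs_of_pos hpi0]
      have h3 : |∫ y, (x * (tent 0 y / (x - y)) - tent 0 y)| ≤ 1 / (|x| - 1) := by
        refine abs_integral_le_integral_abs.trans ?_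
        have h4 : 1 / (|x| - 1) = ∫ y, tent 0 y * (1 / (|x| - 1)) := by
          rw [integral_mul_const, tent_int, one_mul]
        rw [h4]
        apply integral_mono ((hI.const_mul x).sub (tent_nice 0).integrable).abs
          ((tent_nice 0).integrable.mul_const _)
        intro y
        simp only [Pi.sub_apply]
        by_cases hy : tent 0 y = 0
        · simp [hy]
        · have hy1 : |y| < 1 := by
            by_contra hc
            apply hy
            apply tent_zero
            rw [sub_zero]
            exact not_lt.1 hc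
          have h5 : |x| - 1 ≤ |x - y| := by
            have := abs_sub_abs_le_abs_sub x y
            linarith
          have hxy : x - y ≠ 0 := by
            intro h
            rw [h, abs_zero] at h5
            linarith
          have h6 : x * (tent 0 y / (x - y)) - tent 0 y = tent 0 y * (y / (x - y)) := by
            field_simp
            ring
          rw [h6, abs_mul, abs_of_nonneg (tent_nonneg 0 y), abs_div]
          apply mul_le_mul_of_nonneg_left _ (tent_nonneg 0 y)
          exact div_le_div₀ zero_le_one hy1.le hr h5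
      calc 1 / π * |∫ y, (x * (tent 0 y / (x - y)) - tent 0 y)| ≤ 1 / 3 * (3 / kk x) := by
            gcongr
            exact h3.trans hkx
        _ ≤ 6 / kk x := by
          rw [← mul_div_assoc]
          gcongr
          norm_num

/-- the test function with mean zero -/
lemma test_lower {x : ℝ} (hx : 4 ≤ |x|) :
    1 / (1 + x ^ 2) ≤ |2 * π * (Hn (tent 0) x - Hn (tent 2) x)| := by
  have hpi := Real.pi_pos
  have hz0 : ∀ y, |y - x| < |x| - 3 → tent 0 y = 0 := by
    intro y hy
    apply tent_zero
    rw [sub_zero]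
    have := abs_sub_abs_le_abs_sub x y
    rw [abs_sub_comm x y] at this
    linarith
  have hz2 : ∀ y, |y - x| < |x| - 3 → tent 2 y = 0 := by
    intro y hy
    apply tent_zero
    have h1 := abs_sub_abs_le_abs_sub x y
    have h2 := abs_sub_abs_le_abs_sub y 2
    rw [abs_sub_comm x y] at h1
    rw [abs_of_pos (by norm_num : (0 : ℝ) < 2)] at h2
    linarith
  have hr : 0 < |x| - 3 := by linarith
  have hI0 := integrable_far (tent_nice 0).integrable hr hz0
  have hI2 := integrable_far (tent_nice 2).integrable hr hz2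
  rw [(tent_nice 0).far_eq hr hz0, (tent_nice 2).far_eq hr hz2, ← mul_sub]
  have h1 : ∫ y, tent 2 y / (x - y) = ∫ y, tent 0 y / (x - 2 - y) := by
    rw [← integral_sub_right_eq_self (μ := (volume : Measure ℝ))
      (fun y => tent 0 y / (x - 2 - y)) 2]
    congr 1
    ext y
    unfold tent
    rw [sub_zero, show x - 2 - (y - 2) = x - y by ring]
  have hI3 : Integrable (fun y => tent 0 y / (x - 2 - y)) := by
    apply integrable_far (tent_nice 0).integrable (r := |x| - 3) hr
    intro y hy
    apply tent_zero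
    rw [sub_zero]
    have h3 := abs_sub_abs_le_abs_sub (x - 2) y
    have h4 := abs_sub_abs_le_abs_sub x 2
    rw [abs_sub_comm (x - 2) y] at h3
    rw [abs_of_pos (by norm_num : (0 : ℝ) < 2)] at h4
    linarith
  rw [h1, ← integral_sub hI0 hI3]
  have h2 : |2 * π * (1 / π * ∫ y, (tent 0 y / (x - y) - tent 0 y / (x - 2 - y)))|
      = 2 * |∫ y, (tent 0 y / (x - y) - tent 0 y / (x - 2 - y))| := by
    rw [← mul_assoc, abs_mul]
    congr 1
    rw [abs_of_pos (by positivity)]
    field_simp
  rw [h2]
  have hx2 : 16 ≤ x ^ 2 := by rw [← sq_abs]; nlinarith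
  have h3 : 1 / (2 * (1 + x ^ 2)) ≤ -∫ y, (tent 0 y / (x - y) - tent 0 y / (x - 2 - y)) := by
    rw [← integral_neg]
    have h4 : 1 / (2 * (1 + x ^ 2)) = ∫ y, tent 0 y * (1 / (2 * (1 + x ^ 2))) := by
      rw [integral_mul_const, tent_int, one_mul]
    rw [h4]
    apply integral_mono ((tent_nice 0).integrable.mul_const _) (hI0.sub hI3).neg
    intro y
    simp only [Pi.sub_apply, Pi.neg_apply]
    by_cases hy : tent 0 y = 0
    · simp [hy]
    · have hy1 : |y| < 1 := by
        by_contra hc
        apply hy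
        apply tent_zero
        rw [sub_zero]
        exact not_lt.1 hc
      have hy2 := abs_lt.1 hy1
      have hprod : 0 < (x - y) * (x - 2 - y) ∧ (x - y) * (x - 2 - y) ≤ 4 * (1 + x ^ 2) := by
        rcases abs_cases x with ⟨h, _⟩ | ⟨h, _⟩
        · rw [h] at hx
          constructor
          · apply mul_pos <;> linarith
          · nlinarith
        · rw [h] at hx
          constructor
          · apply mul_pos_of_neg_of_neg <;> linarith
          · nlinarith
      have h5 : -(tent 0 y / (x - y) - tent 0 y / (x - 2 - y))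
          = tent 0 y * (2 / ((x - y) * (x - 2 - y))) := by
        have e1 : x - y ≠ 0 := fun h => by rw [h, zero_mul] at hprod; exact lt_irrefl _ hprod.1
        have e2 : x - 2 - y ≠ 0 := fun h => by rw [h, mul_zero] at hprod; exact lt_irrefl _ hprod.1
        field_simp
        ring
      rw [h5]
      apply mul_le_mul_of_nonneg_left _ (tent_nonneg 0 y)
      rw [div_le_div_iff₀ (by positivity) hprod.1]
      linarith [hprod.2]
  have h6 := neg_le_abs (∫ y, (tent 0 y / (x - y) - tent 0 y / (x - 2 - y)))
  have h7 : 1 / (1 + x ^ 2) = 2 * (1 / (2 * (1 + x ^ 2))) := by field_simp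
  rw [h7]
  linarith

section

variable {p : ℝ} (hp : 1 < p) {U : ℝ → ℝ} (hU : Wt U) {C : ℝ≥0} (hadm : Adm p U C)

include hp hU in
lemma nm_tent (a : ℝ) : nm p U (tent a) < ⊤ := by
  apply nm_lt_top hp hU (M := 1) (A := |a| + 1)
  · intro x
    rw [abs_of_nonneg (tent_nonneg a x)]
    exact tent_le_one a x
  · intro x hx
    apply tent_zero
    have := abs_sub_abs_le_abs_sub x a
    linarith

include hp hU hadm in
/-- the size of the weight at infinity -/
lemma size_inf : nm p U (fun x => 1 / (1 + x ^ 2)) < ⊤ := by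
  set f : ℝ → ℝ := fun y => tent 0 y - 1 * tent 2 y with hf
  have hT : HT f (fun x => Hn (tent 0) x - 1 * Hn (tent 2) x) :=
    (tent_nice 0).ht.sub_mul (tent_nice 2).ht (tent_nice 0).integrable (tent_nice 2).integrable 1
  have hfi : Integrable f := (tent_nice 0).integrable.sub ((tent_nice 2).integrable.const_mul 1)
  have hf0 : ∫ x, f x = 0 := by
    simp only [hf]
    rw [integral_sub (tent_nice 0).integrable ((tent_nice 2).integrable.const_mul 1),
      integral_const_mul, tent_int, tent_int]
    ring
  have h1 := hadm f _ hfi hf0 hT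
  have h2 : nm p U f < ⊤ := by
    refine lt_of_le_of_lt (nm_sub_le hp hU.meas (tent_nice 0).cont.aestronglyMeasurable
      ((tent_nice 2).cont.aestronglyMeasurable.const_mul 1)) ?_
    rw [nm_const_mul]
    exact ENNReal.add_lt_top.2 ⟨nm_tent hp hU 0, ENNReal.mul_lt_top ENNReal.ofReal_lt_top
      (nm_tent hp hU 2)⟩
  have h3 : nm p U (fun x => Hn (tent 0) x - 1 * Hn (tent 2) x) < ⊤ :=
    lt_of_le_of_lt h1 (ENNReal.mul_lt_top ENNReal.coe_lt_top h2)
  have hm : AEStronglyMeasurable (fun x => Hn (tent 0) x - 1 * Hn (tent 2) x) volume := hT.aesm hfi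
  set g1 : ℝ → ℝ := fun x => (2 * π) * (Hn (tent 0) x - 1 * Hn (tent 2) x) with hg1
  set g2 : ℝ → ℝ := (Icc (-4 : ℝ) 4).indicator (fun _ => 1) with hg2
  have h4 : nm p U (fun x => 1 / (1 + x ^ 2)) ≤ nm p U (fun x => |g1 x| + g2 x) := by
    apply nm_mono hU.nn
    refine Eventually.of_forall (fun x => ?_)
    have hg2n : 0 ≤ g2 x := indicator_nonneg (fun _ _ => zero_le_one) x
    rw [abs_of_pos (by positivity : (0 : ℝ) < 1 / (1 + x ^ 2)),
      abs_of_nonneg (add_nonneg (abs_nonneg _) hg2n)]
    by_cases hx : 4 ≤ |x|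
    · have := test_lower hx
      simp only [hg1, one_mul]
      linarith
    · have hx' : x ∈ Icc (-4 : ℝ) 4 := abs_le.1 (not_le.1 hx).le
      rw [hg2, indicator_of_mem hx']
      have : 1 / (1 + x ^ 2) ≤ 1 := by
        rw [div_le_one (by positivity)]
        nlinarith [sq_nonneg x]
      linarith [abs_nonneg (g1 x)]
  refine lt_of_le_of_lt h4 ?_
  have hg2m : AEStronglyMeasurable g2 volume :=
    (measurable_const.indicator measurableSet_Icc).aestronglyMeasurable
  have hg1m : AEStronglyMeasurable g1 volume := hm.const_mul _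
  refine lt_of_le_of_lt (nm_add_le hp hU.meas (f := fun x => |g1 x|) hg1m.norm hg2m) ?_
  apply ENNReal.add_lt_top.2 ⟨?_, ?_⟩
  · have h5 : nm p U (fun x => |g1 x|) = nm p U g1 :=
      nm_eq_of_abs hU.nn (Eventually.of_forall (fun x => abs_abs _))
    rw [h5, hg1, nm_const_mul]
    exact ENNReal.mul_lt_top ENNReal.ofReal_lt_top h3
  · apply nm_lt_top hp hU (M := 1) (A := 4)
    · intro x
      rw [hg2]
      by_cases hx : x ∈ Icc (-4 : ℝ) 4
      · rw [indicator_of_mem hx]; simp
      · rw [indicator_of_notMem hx]; simp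
    · intro x hx
      apply indicator_of_notMem
      intro hc
      exact absurd (abs_le.2 hc) (not_le.2 hx)

include hp hU in
/-- Hölder -/
lemma holder (hσ : ∫⁻ x, sg p U x ≠ ∞) {f : ℝ → ℝ} (hf : Integrable f) :
    ENNReal.ofReal |∫ x, f x| ≤ nm p U f * (∫⁻ x, sg p U x) ^ (1 - 1 / p) := by
  have hp0 : 0 < p := by linarith
  have hp1 : 0 < p - 1 := by linarith
  have hpq : p.HolderConjugate (p / (p - 1)) := (Real.holderConjugate_iff_eq_conjExponent hp).2 rfl
  have h1 : ENNReal.ofReal |∫ x, f x| ≤ ∫⁻ x, ‖f x‖ₑ := by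
    have := enorm_integral_le_lintegral_enorm (μ := (volume : Measure ℝ)) f
    rwa [Real.enorm_eq_ofReal_abs] at this
  refine h1.trans ?_
  have hae : ∀ᵐ x : ℝ, sg p U x < ∞ := ae_lt_top (measurable_sg hU.meas) hσ
  set F : ℝ → ℝ≥0∞ := fun x => ‖f x * U x ^ (1 / p)‖ₑ with hF
  set S : ℝ → ℝ≥0∞ := fun x => ENNReal.ofReal (U x) ^ (-(1 / p)) with hS
  have h2 : ∫⁻ x, ‖f x‖ₑ = ∫⁻ x, (F * S) x := by
    apply lintegral_congr_ae
    filter_upwards [hae] with x hx
    have hpos : 0 < U x := by
      rcases (hU.nn x).eq_or_lt with h | h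
      · exfalso
        unfold sg at hx
        rw [← h, ENNReal.ofReal_zero, ENNReal.zero_rpow_of_neg (by
          rw [neg_lt_zero]; positivity)] at hx
        exact lt_irrefl _ hx
      · exact h
    simp only [Pi.mul_apply, hF, hS]
    rw [Real.enorm_eq_ofReal_abs, Real.enorm_eq_ofReal_abs, ENNReal.ofReal_rpow_of_pos hpos,
      ← ENNReal.ofReal_mul (abs_nonneg _), abs_mul, abs_of_pos (Real.rpow_pos_of_pos hpos _),
      mul_assoc, ← Real.rpow_add hpos, add_neg_cancel, Real.rpow_zero, mul_one]
  rw [h2]
  have hFm : AEMeasurable F volume :=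
    (hf.aestronglyMeasurable.mul (hU.meas.pow_const _).aestronglyMeasurable).enorm
  have hSm : AEMeasurable S volume :=
    ((ENNReal.measurable_ofReal.comp hU.meas).pow_const _).aemeasurable
  refine (ENNReal.lintegral_mul_le_Lp_mul_Lq volume hpq hFm hSm).trans ?_
  apply le_of_eq
  congr 1
  · unfold nm
    rw [eLpNorm_eq_lintegral_rpow_enorm_toReal (ofp_ne_zero hp) ENNReal.ofReal_ne_top,
      ofp_toReal hp]
  · have e1 : 1 / (p / (p - 1)) = 1 - 1 / p := by field_simp
    rw [e1]
    congr 1
    apply lintegral_congr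
    intro x
    simp only [hS]
    unfold sg
    rw [← ENNReal.rpow_mul]
    congr 1
    field_simp

end

end Pool.Agent.X93.HW
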