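import Pool.Agent.X93.HW.CaseC

/-! The case of an integrable dual weight: conclusion. -/

set_option autoImplicit false

open MeasureTheory Set Filter Topology
open scoped ENNReal NNReal Real

namespace Pool.Agent.X93.HW

section

variable {p : ℝ} (hp : 1 < p) {U : ℝ → ℝ} (hU : Wt U) {C : ℝ≥0} (hadm : Adm p U C)

include hp hU hadm in
theorem caseC (hσ : ∫⁻ x, sg p U x ≠ ∞) : ∃ C' : ℝ≥0, Bd p (fun x => U x / kk x ^ p) C' := by
  have hp0 : 0 < p := by linarith
  set Sg : ℝ≥0∞ := (∫⁻ x, sg p U x) ^ (1 - 1 / p) with hSg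
  have hSgt : Sg ≠ ∞ := by
    apply ENNReal.rpow_ne_top_of_nonneg _ hσ
    rw [sub_nonneg, div_le_one hp0]; exact hp.le
  set T : ℝ≥0∞ := nm p U (tent 0) with hT
  have hTt : T ≠ ∞ := (nm_tent hp hU 0).ne
  set Z : ℝ≥0∞ := nm p U (fun x => 1 / (1 + x ^ 2)) with hZ
  have hZt : Z ≠ ∞ := (size_inf hp hU hadm).ne
  set D : ℝ≥0∞ := 2 * (C * (1 + Sg * T)) + 2 * (Sg * (ENNReal.ofReal 6 * Z)) with hD
  have hDt : D ≠ ∞ := by
    rw [hD]
    apply ENNReal.add_ne_top.2 ⟨?_, ?_⟩
    · apply ENNReal.mul_ne_top (by simp)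
      apply ENNReal.mul_ne_top ENNReal.coe_ne_top
      apply ENNReal.add_ne_top.2 ⟨by simp, ENNReal.mul_ne_top hSgt hTt⟩
    · apply ENNReal.mul_ne_top (by simp)
      apply ENNReal.mul_ne_top hSgt
      exact ENNReal.mul_ne_top ENNReal.ofReal_ne_top hZt
  refine ⟨D.toNNReal, ?_⟩
  intro G h hG hGh
  rw [ENNReal.coe_toNNReal hDt, nm_weight hp hU.nn (fun x => (kk_pos x).le),
    nm_weight hp hU.nn (fun x => (kk_pos x).le)]
  set P : ℝ≥0∞ := nm p U (fun x => G x / kk x) with hP
  -- the two functions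
  set f2 : ℝ → ℝ := fun y => G y / (1 + y ^ 2) with hf2
  set f1 : ℝ → ℝ := fun y => (y - 0) * f2 y with hf1
  have i2 : Integrable f2 := by
    have hm : Measurable (fun y : ℝ => (1 + y ^ 2)⁻¹) := by fun_prop
    have := hG.bdd_mul (c := 1) (f := fun y => (1 + y ^ 2)⁻¹) hm.aestronglyMeasurable
      (Eventually.of_forall (fun y => by
        rw [Real.norm_eq_abs, abs_of_pos (by positivity)]
        exact inv_le_one_of_one_le₀ (by nlinarith [sq_nonneg y])))
    refine this.congr (Eventually.of_forall (fun y => ?_))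
    simp only [hf2]
    ring
  have i1 : Integrable f1 := by
    have hm : Measurable (fun y : ℝ => y * (1 + y ^ 2)⁻¹) := by fun_prop
    have := hG.bdd_mul (c := 1) (f := fun y => y * (1 + y ^ 2)⁻¹) hm.aestronglyMeasurable
      (Eventually.of_forall (fun y => by
        rw [Real.norm_eq_abs, abs_mul, abs_of_pos (by positivity : (0 : ℝ) < (1 + y ^ 2)⁻¹),
          ← div_eq_mul_inv, div_le_one (by positivity)]
        nlinarith [sq_abs y, abs_nonneg y, sq_nonneg (|y| - 1)]))
    refine this.congr (Eventually.of_forall (fun y => ?_))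
    simp only [hf1, hf2]
    ring
  set m2 : ℝ := ∫ y, f2 y with hm2
  set m1 : ℝ := ∫ y, f1 y with hm1
  set g2 : ℝ → ℝ := fun x => (h x + 1 / π * (x * m2 + m1)) / (1 + x ^ 2) with hg2
  have T2 : HT f2 g2 := by
    have := hGh.div_sq hG
    have e : (∫ y, y * G y / (1 + y ^ 2)) = m1 := by
      rw [hm1]
      congr 1
      ext y
      simp only [hf1, hf2]
      ring
    rw [e] at this
    exact this
  set g1 : ℝ → ℝ := fun x => (x - 0) * g2 x - 1 / π * m2 with hg1
  have T1 : HT f1 g1 := T2.mul_sub i2 0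
  -- the estimate for the two functions
  have key : ∀ f g : ℝ → ℝ, Integrable f → HT f g → (∀ x, |f x| ≤ |G x / kk x|) →
      nm p U (fun x => g x - (∫ y, f y) * Hn (tent 0) x) ≤ C * (1 + Sg * T) * P ∧
      ENNReal.ofReal |∫ y, f y| ≤ Sg * P := by
    intro f g hf hfg hle
    have h1 : nm p U f ≤ P := nm_mono hU.nn (Eventually.of_forall hle)
    have h2 : ENNReal.ofReal |∫ y, f y| ≤ Sg * P := by
      refine (holder hp hU hσ hf).trans ?_
      rw [mul_comm]
      gcongr
    refine ⟨?_, h2⟩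
    have hT0 : nm p U (tent 0) ≤ ENNReal.ofReal T.toReal := by
      rw [ENNReal.ofReal_toReal hTt]
    refine (adm_corr hp hU hadm hf hfg (tent_nice 0) (tent_int 0) hT0).trans ?_
    rw [ENNReal.ofReal_toReal hTt, mul_assoc]
    gcongr
    calc nm p U f + ENNReal.ofReal |∫ y, f y| * T ≤ P + (Sg * P) * T := by gcongr
      _ = (1 + Sg * T) * P := by ring
  have b2 : ∀ x, |f2 x| ≤ |G x / kk x| := by
    intro x
    simp only [hf2]
    rw [abs_div, abs_div, abs_of_pos (kk_pos x), abs_of_pos (by positivity : (0:ℝ) < 1 + x ^ 2),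
      ← kk_sq]
    apply div_le_div_of_nonneg_left (abs_nonneg _) (kk_pos x)
    nlinarith [kk_ge_one x]
  have b1 : ∀ x, |f1 x| ≤ |G x / kk x| := by
    intro x
    simp only [hf1, hf2, sub_zero]
    rw [abs_mul, abs_div, abs_div, abs_of_pos (kk_pos x),
      abs_of_pos (by positivity : (0:ℝ) < 1 + x ^ 2), ← kk_sq, ← mul_div_assoc,
      div_le_div_iff₀ (by have := kk_pos x; positivity) (kk_pos x)]
    have h1 := abs_le_kk x
    have h2 := kk_pos x
    calc |x| * |G x| * kk x ≤ kk x * |G x| * kk x := by gcongr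
      _ = |G x| * kk x ^ 2 := by ring
  obtain ⟨k1, l1⟩ := key f1 g1 i1 T1 b1
  obtain ⟨k2, l2⟩ := key f2 g2 i2 T2 b2
  rw [← hm1] at k1 l1
  rw [← hm2] at k2 l2
  -- the decomposition
  set A1 : ℝ → ℝ := fun x => g1 x - m1 * Hn (tent 0) x with hA1
  set A2 : ℝ → ℝ := fun x => g2 x - m2 * Hn (tent 0) x with hA2
  set B : ℝ → ℝ := fun x => 6 * (1 / (1 + x ^ 2)) with hB
  have hHm : AEStronglyMeasurable (Hn (tent 0)) volume := (tent_nice 0).ht.aesm (tent_nice 0).integrable
  have mA1 : AEStronglyMeasurable A1 volume := (T1.aesm i1).sub (hHm.const_mul _)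
  have mA2 : AEStronglyMeasurable A2 volume := (T2.aesm i2).sub (hHm.const_mul _)
  have mB : AEStronglyMeasurable B volume := by
    have : Measurable B := by fun_prop
    exact this.aestronglyMeasurable
  have hdec : ∀ x, |h x / kk x| ≤ (|A1 x| + |A2 x|) + (|m1| * B x + |m2| * B x) := by
    intro x
    have hk := kk_pos x
    have hk1 := kk_ge_one x
    have e1 : h x = x * A1 x + A2 x + m1 * (x * Hn (tent 0) x - 1 / π) + m2 * Hn (tent 0) x := by
      simp only [hA1, hA2, hg1, hg2]
      have : (1 + x ^ 2) ≠ 0 := by positivity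
      field_simp
      ring
    obtain ⟨t1, t2⟩ := Hn_tent_le x
    have hBx : B x = 6 / kk x / kk x := by
      simp only [hB]
      rw [← kk_sq, div_div, ← sq]
      ring
    have hBn : 0 ≤ B x := by simp only [hB]; positivity
    rw [abs_div, abs_of_pos hk, div_le_iff₀ hk]
    have e2 : B x * kk x = 6 / kk x := by rw [hBx]; field_simp
    calc |h x| ≤ |x| * |A1 x| + |A2 x| + |m1| * |x * Hn (tent 0) x - 1 / π|
          + |m2| * |Hn (tent 0) x| := by
          rw [e1]
          refine (abs_add_le _ _).trans ?_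
          rw [abs_mul m2]
          gcongr
          refine (abs_add_le _ _).trans ?_
          rw [abs_mul m1]
          gcongr
          refine (abs_add_le _ _).trans ?_
          rw [abs_mul x]
      _ ≤ kk x * |A1 x| + kk x * |A2 x| + |m1| * (6 / kk x) + |m2| * (6 / kk x) := by
          have h1 := abs_le_kk x
          have h2 : |A2 x| ≤ kk x * |A2 x| := by nlinarith [abs_nonneg (A2 x)]
          gcongr
      _ = ((|A1 x| + |A2 x|) + (|m1| * B x + |m2| * B x)) * kk x := by
          rw [← e2]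
          ring
  have h1 : nm p U (fun x => h x / kk x)
      ≤ nm p U (fun x => (|A1 x| + |A2 x|) + (|m1| * B x + |m2| * B x)) := by
    apply nm_mono hU.nn
    refine Eventually.of_forall (fun x => (hdec x).trans (le_abs_self _))
  have a1 : nm p U (fun x => |A1 x|) = nm p U A1 :=
    nm_eq_of_abs hU.nn (Eventually.of_forall (fun x => abs_abs _))
  have a2 : nm p U (fun x => |A2 x|) = nm p U A2 :=
    nm_eq_of_abs hU.nn (Eventually.of_forall (fun x => abs_abs _))
  have a3 : nm p U B = ENNReal.ofReal 6 * Z := by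
    simp only [hB]
    rw [nm_const_mul, abs_of_pos (by norm_num : (0:ℝ) < 6)]
  calc nm p U (fun x => h x / kk x)
      ≤ nm p U (fun x => (|A1 x| + |A2 x|) + (|m1| * B x + |m2| * B x)) := h1
    _ ≤ nm p U (fun x => |A1 x| + |A2 x|) + nm p U (fun x => |m1| * B x + |m2| * B x) :=
        nm_add_le hp hU.meas (mA1.norm.add mA2.norm) ((mB.const_mul _).add (mB.const_mul _))
    _ ≤ (nm p U A1 + nm p U A2) + (ENNReal.ofReal |m1| * (ENNReal.ofReal 6 * Z)
          + ENNReal.ofReal |m2| * (ENNReal.ofReal 6 * Z)) := by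
        gcongr
        · refine (nm_add_le hp hU.meas mA1.norm mA2.norm).trans (le_of_eq ?_)
          rw [← a1, ← a2]
          rfl
        · refine (nm_add_le hp hU.meas (mB.const_mul _) (mB.const_mul _)).trans (le_of_eq ?_)
          rw [nm_const_mul U B |m1|, nm_const_mul U B |m2|, a3, abs_abs, abs_abs]
    _ ≤ (C * (1 + Sg * T) * P + C * (1 + Sg * T) * P) + ((Sg * P) * (ENNReal.ofReal 6 * Z)
          + (Sg * P) * (ENNReal.ofReal 6 * Z)) := by gcongr
    _ = D * P := by rw [hD]; ring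

end

end Pool.Agent.X93.HW
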