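import Pool.Agent.X93.HW.Approx

/-! Cheap unit masses where the dual weight is not integrable. -/

set_option autoImplicit false

open MeasureTheory Set Filter Topology
open scoped ENNReal NNReal Real

namespace Pool.Agent.X93.HW

/-- the dual weight `U ^ (-1/(p-1))` -/
noncomputable def sg (p : ℝ) (U : ℝ → ℝ) (x : ℝ) : ℝ≥0∞ := ENNReal.ofReal (U x) ^ (-(1 / (p - 1)))

lemma measurable_sg {p : ℝ} {U : ℝ → ℝ} (hU : Measurable U) : Measurable (sg p U) :=
  (ENNReal.measurable_ofReal.comp hU).pow_const _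

section

variable {p : ℝ} (hp : 1 < p) {U : ℝ → ℝ} (hU : Wt U)

include hp in
lemma trunc_pt {u : ℝ} (hu : 0 ≤ u) (N : ℕ) :
    (min (ENNReal.ofReal u ^ (-(1 / (p - 1)))) (N : ℝ≥0∞)).toReal ^ p * u
      ≤ (min (ENNReal.ofReal u ^ (-(1 / (p - 1)))) (N : ℝ≥0∞)).toReal := by
  set m : ℝ := (min (ENNReal.ofReal u ^ (-(1 / (p - 1)))) (N : ℝ≥0∞)).toReal with hm
  have hm0 : 0 ≤ m := ENNReal.toReal_nonneg
  have hp1 : 0 < p - 1 := by linarith
  rcases hu.eq_or_lt with h | h
  · rw [← h, mul_zero]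
    exact hm0
  · rcases hm0.eq_or_lt with h0 | h0
    · rw [← h0, Real.zero_rpow (by linarith), zero_mul]
    · have h1 : m ≤ u ^ (-(1 / (p - 1))) := by
        have h2 : ENNReal.ofReal u ^ (-(1 / (p - 1))) = ENNReal.ofReal (u ^ (-(1 / (p - 1)))) :=
          ENNReal.ofReal_rpow_of_pos h
        have h3 : m ≤ (ENNReal.ofReal (u ^ (-(1 / (p - 1))))).toReal := by
          rw [hm, h2]
          exact ENNReal.toReal_mono ENNReal.ofReal_ne_top (min_le_left _ _)
        rwa [ENNReal.toReal_ofReal (Real.rpow_nonneg hu _)] at h3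
      have h4 : m ^ (p - 1) ≤ u⁻¹ := by
        calc m ^ (p - 1) ≤ (u ^ (-(1 / (p - 1)))) ^ (p - 1) := by
              apply Real.rpow_le_rpow hm0 h1 hp1.le
          _ = u ^ (-1 : ℝ) := by
              rw [← Real.rpow_mul hu]
              congr 1
              field_simp
          _ = u⁻¹ := Real.rpow_neg_one u
      have h5 : m ^ p = m ^ (p - 1) * m := by
        rw [← Real.rpow_add_one h0.ne']
        congr 1
        ring
      rw [h5]
      calc m ^ (p - 1) * m * u ≤ u⁻¹ * m * u := by gcongr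
        _ = m := by field_simp

include hp hU in
/-- the truncated dual weight on a compact set -/
lemma trunc_fun (N : ℕ) {K : Set ℝ} (hK : IsCompact K) :
    ∃ φ : ℝ → ℝ, Measurable φ ∧ (∀ x, 0 ≤ φ x) ∧ (∀ x, φ x ≤ N) ∧ (∀ x, x ∉ K → φ x = 0) ∧
      Integrable φ ∧
      ENNReal.ofReal (∫ x, φ x) = ∫⁻ x in K, min (sg p U x) (N : ℝ≥0∞) ∧
      nm p U φ ^ p ≤ ENNReal.ofReal (∫ x, φ x) ∧ ∀ x, φ x ^ p * U x ≤ φ x := by
  set φ : ℝ → ℝ := K.indicator (fun x => (min (sg p U x) (N : ℝ≥0∞)).toReal) with hφ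
  have hm : Measurable φ :=
    (((measurable_sg hU.meas).min measurable_const).ennreal_toReal).indicator hK.measurableSet
  have h0 : ∀ x, 0 ≤ φ x := fun x => indicator_nonneg (fun _ _ => ENNReal.toReal_nonneg) x
  have hN : ∀ x, φ x ≤ N := by
    intro x
    by_cases hx : x ∈ K
    · rw [hφ, indicator_of_mem hx]
      have := ENNReal.toReal_mono (ENNReal.natCast_ne_top N) (min_le_right (sg p U x) (N : ℝ≥0∞))
      simpa using this
    · rw [hφ, indicator_of_notMem hx]
      positivity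
  have hz : ∀ x, x ∉ K → φ x = 0 := fun x hx => indicator_of_notMem hx _
  have hint : Integrable φ := by
    have h1 : Integrable (K.indicator (fun _ => (N : ℝ))) := by
      rw [integrable_indicator_iff hK.measurableSet]
      exact integrableOn_const hK.measure_lt_top.ne
    apply h1.mono' hm.aestronglyMeasurable
    refine Eventually.of_forall (fun x => ?_)
    rw [Real.norm_eq_abs, abs_of_nonneg (h0 x)]
    by_cases hx : x ∈ K
    · rw [indicator_of_mem hx]; exact hN x
    · rw [hz x hx, indicator_of_notMem hx]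
  have hlin : ENNReal.ofReal (∫ x, φ x) = ∫⁻ x, ENNReal.ofReal (φ x) :=
    ofReal_integral_eq_lintegral_ofReal hint (Eventually.of_forall h0)
  have hpt : ∀ x, φ x ^ p * U x ≤ φ x := by
    intro x
    by_cases hx : x ∈ K
    · simp only [hφ, indicator_of_mem hx]
      exact trunc_pt hp (hU.nn x) N
    · rw [hz x hx, Real.zero_rpow (by linarith), zero_mul]
  refine ⟨φ, hm, h0, hN, hz, hint, ?_, ?_, hpt⟩
  · rw [hlin, ← lintegral_indicator hK.measurableSet]
    apply lintegral_congr
    intro x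
    by_cases hx : x ∈ K
    · rw [hφ, indicator_of_mem hx, indicator_of_mem hx, ENNReal.ofReal_toReal]
      exact ne_top_of_le_ne_top (ENNReal.natCast_ne_top N) (min_le_right _ _)
    · rw [hz x hx, indicator_of_notMem hx, ENNReal.ofReal_zero]
  · rw [nm_rpow hp hU.nn, hlin]
    apply lintegral_mono
    intro x
    apply ENNReal.ofReal_le_ofReal
    rw [abs_of_nonneg (h0 x)]
    exact hpt x

include hp hU in
/-- Lipschitz approximation in both norms -/
lemma approx_nm {φ : ℝ → ℝ} {N : ℝ} (hφm : Measurable φ) (h0 : ∀ x, 0 ≤ φ x) (hN : ∀ x, φ x ≤ N)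
    {K S : Set ℝ} (hK : IsCompact K) (hS : IsOpen S) (hKS : K ⊆ S) (hφK : ∀ x, x ∉ K → φ x = 0)
    (hφi : Integrable φ) {ε : ℝ} (hε : 0 < ε) :
    ∃ ψ : ℝ → ℝ, Nice ψ ∧ (∀ x, x ∉ S → ψ x = 0) ∧ (∀ x, ψ x ≤ N) ∧
      |(∫ x, ψ x) - ∫ x, φ x| ≤ ε ∧ nm p U ψ ≤ nm p U φ + ENNReal.ofReal ε := by
  have hp0 : 0 < p := by linarith
  have hN0 : 0 ≤ N := (h0 0).trans (hN 0)
  set η : ℝ := min ε (ε ^ p / (N ^ (p - 1) + 1)) with hη
  have hηpos : 0 < η := by
    have : 0 ≤ N ^ (p - 1) := Real.rpow_nonneg hN0 _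
    have := Real.rpow_pos_of_pos hε p
    exact lt_min hε (by positivity)
  obtain ⟨ψ, hψ, hψS, hψN, h1, h2⟩ := approx hU hφm h0 hN hK hS hKS hφK hηpos
  refine ⟨ψ, hψ, hψS, hψN, ?_, ?_⟩
  · have h3 : |(∫ x, ψ x) - ∫ x, φ x| = |∫ x, (ψ x - φ x)| := by
      rw [integral_sub hψ.integrable hφi]
    rw [h3]
    refine abs_integral_le_integral_abs.trans ?_
    have h4 : ENNReal.ofReal (∫ x, |ψ x - φ x|) ≤ ENNReal.ofReal η := by
      have h5 := ofReal_integral_eq_lintegral_ofReal (hψ.integrable.sub hφi).abs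
        (Eventually.of_forall (fun x => abs_nonneg _))
      simp only [Pi.sub_apply] at h5
      rw [h5]
      exact h1
    exact ((ENNReal.ofReal_le_ofReal_iff hηpos.le).1 h4).trans (min_le_left _ _)
  · have h5 : nm p U (fun x => ψ x - φ x) ≤ ENNReal.ofReal ε := by
      rw [nm_eq hp hU.nn]
      have h6 : ∫⁻ x, ENNReal.ofReal (|ψ x - φ x| ^ p * U x)
          ≤ ENNReal.ofReal (N ^ (p - 1)) * ENNReal.ofReal η := by
        calc ∫⁻ x, ENNReal.ofReal (|ψ x - φ x| ^ p * U x)
            ≤ ∫⁻ x, ENNReal.ofReal (N ^ (p - 1)) * ENNReal.ofReal (|ψ x - φ x| * U x) := by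
              apply lintegral_mono
              intro x
              simp only
              rw [← ENNReal.ofReal_mul (Real.rpow_nonneg hN0 _)]
              apply ENNReal.ofReal_le_ofReal
              have hd : |ψ x - φ x| ≤ N := by
                rw [abs_le]
                constructor <;> linarith [hψ.nn x, h0 x, hN x, hψN x]
              have hsplit : |ψ x - φ x| ^ p ≤ N ^ (p - 1) * |ψ x - φ x| := by
                rcases (abs_nonneg (ψ x - φ x)).eq_or_lt with hz | hz
                · rw [← hz, Real.zero_rpow hp0.ne', mul_zero]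
                · calc |ψ x - φ x| ^ p = |ψ x - φ x| ^ (p - 1) * |ψ x - φ x| := by
                        rw [← Real.rpow_add_one hz.ne']
                        congr 1; ring
                    _ ≤ N ^ (p - 1) * |ψ x - φ x| := by
                        gcongr
              calc |ψ x - φ x| ^ p * U x ≤ N ^ (p - 1) * |ψ x - φ x| * U x := by
                    have := hU.nn x
                    gcongr
                _ = _ := by ring
          _ = ENNReal.ofReal (N ^ (p - 1)) * ∫⁻ x, ENNReal.ofReal (|ψ x - φ x| * U x) :=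
              lintegral_const_mul' _ _ ENNReal.ofReal_ne_top
          _ ≤ _ := by gcongr
      have h7 : ENNReal.ofReal (N ^ (p - 1)) * ENNReal.ofReal η ≤ ENNReal.ofReal (ε ^ p) := by
        rw [← ENNReal.ofReal_mul (Real.rpow_nonneg hN0 _)]
        apply ENNReal.ofReal_le_ofReal
        have h8 : 0 ≤ N ^ (p - 1) := Real.rpow_nonneg hN0 _
        have h9 := Real.rpow_pos_of_pos hε p
        calc N ^ (p - 1) * η ≤ N ^ (p - 1) * (ε ^ p / (N ^ (p - 1) + 1)) := by
              gcongr
              exact min_le_right _ _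
          _ = ε ^ p * (N ^ (p - 1) / (N ^ (p - 1) + 1)) := by ring
          _ ≤ ε ^ p * 1 := by
              gcongr
              rw [div_le_one (by positivity)]
              linarith
          _ = ε ^ p := mul_one _
      calc (∫⁻ x, ENNReal.ofReal (|ψ x - φ x| ^ p * U x)) ^ (1 / p)
          ≤ (ENNReal.ofReal (ε ^ p)) ^ (1 / p) := by
            apply ENNReal.rpow_le_rpow (h6.trans h7) (by positivity)
        _ = ENNReal.ofReal ε := by
            rw [ENNReal.ofReal_rpow_of_nonneg (Real.rpow_nonneg hε.le _) (by positivity),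
              ← Real.rpow_mul hε.le, mul_one_div_cancel hp0.ne', Real.rpow_one]
    have h6 := nm_add_le hp hU.meas (f := φ) (g := fun x => ψ x - φ x) hφm.aestronglyMeasurable
      (hψ.cont.aestronglyMeasurable.sub hφm.aestronglyMeasurable)
    have e1 : (fun x => φ x + (ψ x - φ x)) = ψ := by ext x; ring
    rw [e1] at h6
    exact h6.trans (by gcongr)

include hp hU in
/-- cheap unit masses -/
lemma cheap {S : Set ℝ} (hS : IsOpen S) (hinf : ∫⁻ x in S, sg p U x = ∞) {ε : ℝ} (hε : 0 < ε) :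
    ∃ ψ : ℝ → ℝ, Nice ψ ∧ (∀ x, x ∉ S → ψ x = 0) ∧ ∫ x, ψ x = 1 ∧ nm p U ψ ≤ ENNReal.ofReal ε := by
  have hp0 : 0 < p := by linarith
  -- the target
  have hy : 0 < 1 - 1 / p := by
    rw [sub_pos, div_lt_one hp0]; exact hp
  obtain ⟨T, hT⟩ := ((tendsto_rpow_neg_atTop hy).eventually_le_const
    (by positivity : 0 < ε / 4)).exists_forall_of_atTop
  set T' : ℝ := max T 2 with hT'
  -- truncation
  have hmono : Monotone (fun (N : ℕ) x => min (sg p U x) (N : ℝ≥0∞)) := by
    intro N M hNM x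
    exact min_le_min le_rfl (by exact_mod_cast hNM)
  have hsup : ⨆ N : ℕ, ∫⁻ x in S, min (sg p U x) (N : ℝ≥0∞) = ∞ := by
    rw [← lintegral_iSup (fun N => (measurable_sg hU.meas).min measurable_const) hmono, ← hinf]
    apply lintegral_congr
    intro x
    have h1 : sg p U x ⊓ (⨆ N : ℕ, (N : ℝ≥0∞)) = ⨆ N : ℕ, sg p U x ⊓ (N : ℝ≥0∞) := inf_iSup_eq _ _
    rw [ENNReal.iSup_natCast, inf_top_eq] at h1
    exact h1.symm
  obtain ⟨N, hN⟩ : ∃ N : ℕ, ENNReal.ofReal T' < ∫⁻ x in S, min (sg p U x) (N : ℝ≥0∞) := by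
    rw [← lt_iSup_iff, hsup]
    exact ENNReal.ofReal_lt_top
  -- compact subset
  set ν : Measure ℝ := volume.withDensity (fun x => min (sg p U x) (N : ℝ≥0∞)) with hν
  have hνle : ν ≤ (N : ℝ≥0∞) • volume := by
    rw [hν, ← withDensity_const]
    apply withDensity_mono
    exact Eventually.of_forall (fun x => min_le_right _ _)
  have : IsLocallyFiniteMeasure ν := by
    refine ⟨fun x => ⟨Metric.ball x 1, Metric.ball_mem_nhds x one_pos, ?_⟩⟩
    refine lt_of_le_of_lt (hνle _) ?_
    rw [Measure.smul_apply, smul_eq_mul]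
    exact ENNReal.mul_lt_top (ENNReal.natCast_lt_top N) measure_ball_lt_top
  have hνS : ENNReal.ofReal T' < ν S := by
    rw [hν, withDensity_apply _ hS.measurableSet]
    exact hN
  obtain ⟨K, hKS, hK, hKlt⟩ := hS.exists_lt_isCompact hνS
  rw [hν, withDensity_apply _ hK.measurableSet] at hKlt
  obtain ⟨φ, hm, h0, hφN, hz, hint, heq, hnm, hpt⟩ := trunc_fun hp hU N hK
  rw [← heq] at hKlt
  set A : ℝ := ∫ x, φ x with hA
  have hAT : T' < A := by
    by_contra hc
    exact absurd hKlt (not_lt.2 (ENNReal.ofReal_le_ofReal (not_lt.1 hc)))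
  have hA2 : 2 < A := lt_of_le_of_lt (le_max_right _ _) hAT
  have hAT2 : T ≤ A := (le_max_left _ _).trans hAT.le
  obtain ⟨ψ, hψ, hψS, -, h1, h2⟩ := approx_nm hp hU hm h0 hφN hK hS hKS hz hint one_pos
  have hB : A - 1 ≤ ∫ x, ψ x := by
    have := abs_le.1 h1
    linarith [this.1]
  set B : ℝ := ∫ x, ψ x with hBdef
  have hBpos : 0 < B := by linarith
  refine ⟨fun x => B⁻¹ * ψ x, ⟨?_, ?_, ?_⟩, ?_, ?_, ?_⟩
  · obtain ⟨L, hL⟩ := hψ.lip
    refine ⟨B⁻¹ * L, fun a b => ?_⟩
    rw [← mul_sub, abs_mul, abs_of_pos (inv_pos.2 hBpos), mul_assoc]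
    exact mul_le_mul_of_nonneg_left (hL a b) (inv_pos.2 hBpos).le
  · exact hψ.supp.mul_left
  · intro x
    exact mul_nonneg (inv_pos.2 hBpos).le (hψ.nn x)
  · intro x hx
    simp only [hψS x hx, mul_zero]
  · rw [integral_const_mul]
    exact inv_mul_cancel₀ hBpos.ne'
  · rw [nm_const_mul, abs_of_pos (inv_pos.2 hBpos)]
    have h3 : nm p U φ ≤ ENNReal.ofReal (A ^ (1 / p)) := by
      have h4 : (nm p U φ ^ p) ^ (1 / p) ≤ (ENNReal.ofReal A) ^ (1 / p) :=
        ENNReal.rpow_le_rpow hnm (by positivity)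
      rwa [← ENNReal.rpow_mul, mul_one_div_cancel hp0.ne', ENNReal.rpow_one,
        ENNReal.ofReal_rpow_of_nonneg (by linarith) (by positivity)] at h4
    have h5 : nm p U ψ ≤ ENNReal.ofReal (A ^ (1 / p) + 1) := by
      rw [ENNReal.ofReal_add (Real.rpow_nonneg (by linarith) _) zero_le_one]
      exact h2.trans (by gcongr)
    calc ENNReal.ofReal B⁻¹ * nm p U ψ ≤ ENNReal.ofReal B⁻¹ * ENNReal.ofReal (A ^ (1 / p) + 1) := by
          gcongr
      _ = ENNReal.ofReal (B⁻¹ * (A ^ (1 / p) + 1)) :=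
          (ENNReal.ofReal_mul (inv_pos.2 hBpos).le).symm
      _ ≤ ENNReal.ofReal ε := by
          apply ENNReal.ofReal_le_ofReal
          have h6 : (1 : ℝ) ≤ A ^ (1 / p) := Real.one_le_rpow (by linarith) (by positivity)
          have h7 : A / 2 ≤ B := by linarith
          have h8 := hT A hAT2
          have h9 : A ^ (1 / p) = A * A ^ (-(1 - 1 / p)) := by
            have hA0 : 0 < A := by linarith
            rw [← Real.rpow_one_add' hA0.le]
            · congr 1; ring
            · have : (0 : ℝ) < 1 / p := by positivity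
              intro h; linarith
          rw [inv_mul_le_iff₀ hBpos]
          calc A ^ (1 / p) + 1 ≤ 2 * A ^ (1 / p) := by linarith
            _ = 2 * (A * A ^ (-(1 - 1 / p))) := by rw [h9]
            _ ≤ 2 * (A * (ε / 4)) := by
                have : 0 < A := by linarith
                gcongr
            _ = A / 2 * ε := by ring
            _ ≤ B * ε := by gcongr

end

end Pool.Agent.X93.HW
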