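import Pool.Agent.X93.HW.Pv

/-! Existence of the principal value for Lipschitz functions; measurability. -/

set_option autoImplicit false

open MeasureTheory Set Filter Topology
open scoped ENNReal NNReal Real

namespace Pool.Agent.X93.HW

noncomputable def JJ (φ : ℝ → ℝ) (x y : ℝ) : ℝ := (φ y - if |y - x| ≤ 1 then φ x else 0) / (x - y)

lemma meas_one (x : ℝ) : MeasurableSet {y : ℝ | |y - x| ≤ 1} :=
  measurableSet_le (by fun_prop) measurable_const

lemma odd_int (x δ : ℝ) :
    ∫ y in {y : ℝ | δ < |y - x|}, {y : ℝ | |y - x| ≤ 1}.indicator (fun y => (x - y)⁻¹) y = 0 := by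
  rw [← integral_indicator (meas_set δ x)]
  set h : ℝ → ℝ := {y : ℝ | δ < |y - x|}.indicator
    ({y : ℝ | |y - x| ≤ 1}.indicator (fun y => (x - y)⁻¹)) with hh
  have h1 : ∀ y, h (2 * x - y) = -h y := by
    intro y
    have e1 : |2 * x - y - x| = |y - x| := by
      rw [show 2 * x - y - x = -(y - x) by ring, abs_neg]
    have e2 : (x - (2 * x - y))⁻¹ = -(x - y)⁻¹ := by
      rw [show x - (2 * x - y) = -(x - y) by ring, inv_neg]
    simp only [hh, indicator, mem_ofPred_eq, e1, e2]
    split_ifs <;> simp
  have h2 : ∫ y, h (2 * x - y) = ∫ y, h y := integral_sub_left_eq_self h volume (2 * x)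
  simp_rw [h1] at h2
  rw [integral_neg] at h2
  have h3 : ∫ y, h y = 0 := by linarith
  exact h3

lemma int_one (x δ : ℝ) (hδ : 0 < δ) :
    IntegrableOn ({y : ℝ | |y - x| ≤ 1}.indicator (fun y => (x - y)⁻¹)) {y : ℝ | δ < |y - x|} := by
  rw [IntegrableOn, integrable_indicator_iff (meas_one x), IntegrableOn,
    Measure.restrict_restrict (meas_one x)]
  have hfin : volume ({y : ℝ | |y - x| ≤ 1} ∩ {y : ℝ | δ < |y - x|}) < ⊤ := by
    refine lt_of_le_of_lt (measure_mono (t := Icc (x - 1) (x + 1)) ?_) (by simp)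
    rintro y ⟨hy, _⟩
    have hy' : |y - x| ≤ 1 := hy
    have := abs_le.1 hy'
    exact ⟨by linarith [this.1], by linarith [this.2]⟩
  apply Integrable.mono' (g := fun _ => δ⁻¹)
  · exact integrableOn_const hfin.ne
  · exact (measurable_const.sub measurable_id).inv.aestronglyMeasurable
  · rw [ae_restrict_iff' ((meas_one x).inter (meas_set δ x))]
    refine Eventually.of_forall (fun y hy => ?_)
    rw [norm_inv, Real.norm_eq_abs]
    have : δ < |x - y| := by rw [abs_sub_comm]; exact hy.2
    gcongr

lemma int_ind (x L : ℝ) : Integrable ({y : ℝ | |y - x| ≤ 1}.indicator (fun _ => L)) := by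
  rw [integrable_indicator_iff (meas_one x)]
  have hfin : volume {y : ℝ | |y - x| ≤ 1} < ⊤ := by
    refine lt_of_le_of_lt (measure_mono (t := Icc (x - 1) (x + 1)) ?_) (by simp)
    intro y hy
    have hy' : |y - x| ≤ 1 := hy
    have := abs_le.1 hy'
    exact ⟨by linarith [this.1], by linarith [this.2]⟩
  exact integrableOn_const hfin.ne

section

variable {φ : ℝ → ℝ} {L : ℝ} (hL : ∀ a b, |φ a - φ b| ≤ L * |a - b|) (hφ : Integrable φ)

include hL in
lemma L_nonneg : 0 ≤ L := by
  have := (abs_nonneg _).trans (hL 1 0)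
  simpa using this

include hL in
lemma JJ_le (x y : ℝ) : |JJ φ x y| ≤ {y : ℝ | |y - x| ≤ 1}.indicator (fun _ => L) y + |φ y| := by
  have hL0 := L_nonneg hL
  unfold JJ
  by_cases hy : |y - x| ≤ 1
  · rw [if_pos hy, indicator_of_mem (by exact hy), abs_div]
    by_cases hxy : x = y
    · rw [hxy, sub_self, sub_self, abs_zero, zero_div]
      positivity
    · have h1 : |φ y - φ x| / |x - y| ≤ L := by
        rw [div_le_iff₀ (abs_pos.2 (sub_ne_zero.2 hxy)), abs_sub_comm x y]
        exact hL y x
      linarith [abs_nonneg (φ y)]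
  · rw [if_neg hy, indicator_of_notMem (by exact hy), sub_zero, abs_div, zero_add]
    apply div_le_self (abs_nonneg _)
    rw [abs_sub_comm]
    exact (not_le.1 hy).le

include hL hφ in
lemma int_bd (x : ℝ) : Integrable (fun y => {y : ℝ | |y - x| ≤ 1}.indicator (fun _ => L) y + |φ y|) := by
  exact Integrable.add (int_ind x L) hφ.abs

include hL hφ in
lemma int_JJ (x : ℝ) : Integrable (JJ φ x) := by
  apply (int_bd hL hφ x).mono'
  · unfold JJ
    simp_rw [div_eq_mul_inv]
    apply AEStronglyMeasurable.mul
    · apply hφ.aestronglyMeasurable.sub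
      exact (Measurable.ite (meas_one x) measurable_const measurable_const).aestronglyMeasurable
    · exact (measurable_const.sub measurable_id).inv.aestronglyMeasurable
  · exact Eventually.of_forall (fun y => JJ_le hL x y)

include hL hφ in
lemma lip_ht (x : ℝ) :
    Tendsto (fun δ => tr φ δ x) (𝓝[>] 0) (𝓝 (1 / π * ∫ y, JJ φ x y)) := by
  have h1 := (lim_int (int_JJ hL hφ x) x).const_mul (1 / π)
  apply h1.congr'
  filter_upwards [self_mem_nhdsWithin] with δ hδ
  unfold tr
  congr 1
  have h2 : ∀ y, φ y / (x - y) = JJ φ x y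
      + φ x * {y : ℝ | |y - x| ≤ 1}.indicator (fun y => (x - y)⁻¹) y := by
    intro y
    unfold JJ
    by_cases hy : |y - x| ≤ 1
    · rw [if_pos hy, indicator_of_mem (by exact hy)]
      ring
    · rw [if_neg hy, indicator_of_notMem (by exact hy)]
      ring
  simp_rw [h2]
  rw [integral_add (int_JJ hL hφ x).integrableOn ((int_one x δ hδ).const_mul _),
    integral_const_mul, odd_int, mul_zero, add_zero]

include hL hφ in
lemma lip_bound (x : ℝ) : |1 / π * ∫ y, JJ φ x y| ≤ 1 / π * (2 * L + ∫ y, |φ y|) := by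
  have hpi := Real.pi_pos
  rw [abs_mul, abs_of_pos (by positivity : 0 < 1 / π)]
  gcongr
  calc |∫ y, JJ φ x y| ≤ ∫ y, |JJ φ x y| := abs_integral_le_integral_abs
    _ ≤ ∫ y, ({y : ℝ | |y - x| ≤ 1}.indicator (fun _ => L) y + |φ y|) :=
        integral_mono (int_JJ hL hφ x).abs (int_bd hL hφ x) (fun y => JJ_le hL x y)
    _ = 2 * L + ∫ y, |φ y| := by
        rw [integral_add _ hφ.abs]
        · congr 1
          rw [integral_indicator (meas_one x), setIntegral_const, smul_eq_mul]
          congr 1
          have : {y : ℝ | |y - x| ≤ 1} = Icc (x - 1) (x + 1) := by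
            ext y
            simp only [mem_ofPred_eq, mem_Icc, abs_le]
            constructor
            · rintro ⟨h1, h2⟩; exact ⟨by linarith, by linarith⟩
            · rintro ⟨h1, h2⟩; exact ⟨by linarith, by linarith⟩
          rw [this, Measure.real, Real.volume_Icc, ENNReal.toReal_ofReal (by linarith)]
          ring
        · exact int_ind x L

end

lemma aesm_tr {f : ℝ → ℝ} (hf : Integrable f) (δ : ℝ) : AEStronglyMeasurable (tr f δ) volume := by
  set f' := hf.aestronglyMeasurable.mk f with hf'
  have hm : StronglyMeasurable f' := hf.aestronglyMeasurable.stronglyMeasurable_mk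
  have he : f =ᵐ[volume] f' := hf.aestronglyMeasurable.ae_eq_mk
  have h1 : tr f δ = fun x => 1 / π * ∫ y, {p : ℝ × ℝ | δ < |p.2 - p.1|}.indicator
      (fun p => f' p.2 / (p.1 - p.2)) (x, y) := by
    ext x
    unfold tr
    congr 1
    rw [← integral_indicator (meas_set δ x)]
    apply integral_congr_ae
    filter_upwards [he] with y hy
    by_cases h : δ < |y - x|
    · rw [indicator_of_mem (by exact h), indicator_of_mem (by exact h), hy]
    · rw [indicator_of_notMem (by exact h), indicator_of_notMem (by exact h)]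
  rw [h1]
  apply AEStronglyMeasurable.const_mul
  apply StronglyMeasurable.aestronglyMeasurable
  apply StronglyMeasurable.integral_prod_right (f := fun x y =>
    {p : ℝ × ℝ | δ < |p.2 - p.1|}.indicator (fun p => f' p.2 / (p.1 - p.2)) (x, y))
  apply StronglyMeasurable.indicator
  · apply StronglyMeasurable.div
    · exact hm.comp_measurable measurable_snd
    · exact (measurable_fst.sub measurable_snd).stronglyMeasurable
  · exact measurableSet_lt measurable_const (by fun_prop)

lemma HT.aesm {f g : ℝ → ℝ} (h : HT f g) (hf : Integrable f) :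
    AEStronglyMeasurable g volume := by
  have hu : Tendsto (fun n : ℕ => 1 / ((n : ℝ) + 1)) atTop (𝓝[>] 0) := by
    rw [tendsto_nhdsWithin_iff]
    refine ⟨tendsto_one_div_add_atTop_nhds_zero_nat, Eventually.of_forall (fun n => ?_)⟩
    exact mem_Ioi.2 (by positivity)
  apply aestronglyMeasurable_of_tendsto_ae atTop (f := fun n : ℕ => tr f (1 / ((n : ℝ) + 1)))
    (fun n => aesm_tr hf _)
  filter_upwards [h] with x hx
  exact hx.comp hu

end Pool.Agent.X93.HW
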