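import Pool.Agent.X93.HW.CaseC

/-! Sufficiency. -/

set_option autoImplicit false

open MeasureTheory Set Filter Topology
open scoped ENNReal NNReal Real

namespace Pool.Agent.X93.HW

section

variable {p : ℝ} (hp : 1 < p) {U : ℝ → ℝ} (hU : Wt U) {C : ℝ≥0}

include hp hU in
/-- it is enough to consider functions with bounded support -/
lemma trunc_arg (H : ∀ f g : ℝ → ℝ, Integrable f → (∃ A : ℝ, ∀ x, A < |x| → f x = 0) →
    ∫ x, f x = 0 → HT f g → nm p U g ≤ C * nm p U f) : Adm p U C := by
  classical
  intro f g hf hf0 hfg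
  set S : ℕ → Set ℝ := fun n => Icc (-(n : ℝ)) n with hS
  have hSm : ∀ n, MeasurableSet (S n) := fun n => measurableSet_Icc
  have hfr : ∀ n, volume (frontier (S n)) = 0 := by
    intro n
    have h1 : frontier (S n) ⊆ {-(n : ℝ), (n : ℝ)} := by
      rw [hS]
      simp only
      rcases Nat.eq_zero_or_pos n with h | h
      · subst h
        simp only [Nat.cast_zero, neg_zero, Icc_self]
        intro y hy
        left
        exact isClosed_singleton.frontier_subset hy
      · rw [frontier_Icc]
        have : (0 : ℝ) < n := by exact_mod_cast h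
        linarith
    exact measure_mono_null h1 (by
      have : ({-(n : ℝ), (n : ℝ)} : Set ℝ).Finite := by simp
      exact this.measure_zero volume)
  have hT := fun n => hfg.restrict hf (hSm n) (hfr n)
  set c : ℕ → ℝ := fun n => ∫ y in S n, f y with hc
  have hc0 : Tendsto c atTop (𝓝 0) := by
    have hcov : AECover (volume : Measure ℝ) atTop (fun n : ℕ => Icc (-(n : ℝ)) n) :=
      aecover_Icc (tendsto_neg_atBot_iff.2 tendsto_natCast_atTop_atTop |>.comp
        (tendsto_id)) tendsto_natCast_atTop_atTop
    have := hcov.integral_tendsto_of_countably_generated hf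
    rwa [hf0] at this
  set fn : ℕ → ℝ → ℝ := fun n y => (S n).indicator f y - c n * tent 0 y with hfn
  set gn : ℕ → ℝ → ℝ := fun n x => (if x ∈ S n then g x - 1 / π * ∫ y in (S n)ᶜ, f y / (x - y)
      else 1 / π * ∫ y in S n, f y / (x - y)) - c n * Hn (tent 0) x with hgn
  have hTn : ∀ n, HT (fn n) (gn n) := fun n => by
    have h := (hT n).sub_mul (tent_nice 0).ht (hf.indicator (hSm n)) (tent_nice 0).integrable (c n)
    convert h
  have hin : ∀ n, Integrable (fn n) := fun n =>
    (hf.indicator (hSm n)).sub ((tent_nice 0).integrable.const_mul _)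
  have hzn : ∀ n, ∫ x, fn n x = 0 := by
    intro n
    simp only [hfn]
    rw [integral_sub (hf.indicator (hSm n)) ((tent_nice 0).integrable.const_mul _),
      integral_const_mul, tent_int, mul_one, integral_indicator (hSm n)]
    simp only [hc, sub_self]
  have hbn : ∀ n, ∃ A : ℝ, ∀ x, A < |x| → fn n x = 0 := by
    intro n
    refine ⟨n + 1, fun x hx => ?_⟩
    simp only [hfn]
    have h1 : x ∉ S n := by
      intro h
      have := abs_le.2 h
      linarith
    have h2 : tent 0 x = 0 := by
      apply tent_zero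
      rw [sub_zero]
      have : (0 : ℝ) ≤ n := Nat.cast_nonneg n
      linarith
    rw [indicator_of_notMem h1, h2]
    ring
  have hB : ∀ n, nm p U (gn n) ≤ C * (nm p U f + ENNReal.ofReal |c n| * nm p U (tent 0)) := by
    intro n
    refine (H _ _ (hin n) (hbn n) (hzn n) (hTn n)).trans ?_
    gcongr
    refine (nm_sub_le hp hU.meas (hf.indicator (hSm n)).aestronglyMeasurable
      ((tent_nice 0).integrable.const_mul _).aestronglyMeasurable).trans ?_
    rw [nm_const_mul]
    gcongr
    apply nm_mono hU.nn
    refine Eventually.of_forall (fun x => ?_)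
    by_cases hx : x ∈ S n
    · rw [indicator_of_mem hx]
    · rw [indicator_of_notMem hx, abs_zero]; exact abs_nonneg _
  have hBt : Tendsto (fun n => C * (nm p U f + ENNReal.ofReal |c n| * nm p U (tent 0))) atTop
      (𝓝 (C * nm p U f)) := by
    apply ENNReal.Tendsto.const_mul _ (Or.inr ENNReal.coe_ne_top)
    have h1 : Tendsto (fun n => ENNReal.ofReal |c n|) atTop (𝓝 0) := by
      have := ENNReal.tendsto_ofReal hc0.abs
      rwa [abs_zero, ENNReal.ofReal_zero] at this
    have h2 : Tendsto (fun n => ENNReal.ofReal |c n| * nm p U (tent 0)) atTop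
        (𝓝 (0 * nm p U (tent 0))) :=
      ENNReal.Tendsto.mul_const h1 (Or.inr (nm_tent hp hU 0).ne)
    rw [zero_mul] at h2
    have h3 := (tendsto_const_nhds (x := nm p U f)).add h2
    rwa [add_zero] at h3
  apply nm_fatou hp hU.meas (f := gn) (fun n => (hTn n).aesm (hin n)) _ hB hBt
  refine Eventually.of_forall (fun x => ?_)
  have hlim : Tendsto (fun n => 1 / π * ∫ y in (S n)ᶜ, f y / (x - y)) atTop (𝓝 0) := by
    have h0 : Tendsto (fun n : ℕ => 1 / π * (((n : ℝ) - |x|)⁻¹ * ∫ y, |f y|)) atTop (𝓝 0) := by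
      have h2 : Tendsto (fun n : ℕ => (n : ℝ) - |x|) atTop atTop :=
        tendsto_atTop_add_const_right _ _ tendsto_natCast_atTop_atTop
      have h3 := ((h2.inv_tendsto_atTop).mul_const (∫ y, |f y|)).const_mul (1 / π)
      simpa using h3
    apply squeeze_zero_norm' _ h0
    have hev : ∀ᶠ n : ℕ in atTop, |x| < n := by
      obtain ⟨n0, hn0⟩ := exists_nat_gt |x|
      filter_upwards [eventually_ge_atTop n0] with n hn
      exact lt_of_lt_of_le hn0 (by exact_mod_cast hn)
    filter_upwards [hev] with n hn
    rw [norm_mul, Real.norm_eq_abs, abs_of_pos (by positivity : 0 < 1 / π)]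
    gcongr
    have hr : 0 < (n : ℝ) - |x| := by linarith
    have hz : ∀ y, |y - x| < (n : ℝ) - |x| → (S n)ᶜ.indicator f y = 0 := by
      intro y hy
      apply indicator_of_notMem
      rw [notMem_compl_iff]
      apply abs_le.1
      have := abs_sub_abs_le_abs_sub y x
      linarith
    have h6 := integrable_far (hf.indicator (hSm n).compl) hr hz
    have h7 : (fun y => (S n)ᶜ.indicator f y / (x - y))
        = (S n)ᶜ.indicator (fun y => f y / (x - y)) := by
      ext y
      by_cases hy : y ∈ (S n)ᶜ
      · simp [hy]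
      · simp [hy]
    rw [h7, integrable_indicator_iff (hSm n).compl] at h6
    calc ‖∫ y in (S n)ᶜ, f y / (x - y)‖ ≤ ∫ y in (S n)ᶜ, ‖f y / (x - y)‖ :=
          norm_integral_le_integral_norm _
      _ ≤ ∫ y in (S n)ᶜ, ((n : ℝ) - |x|)⁻¹ * |f y| := by
          apply setIntegral_mono_on h6.norm (hf.abs.const_mul _).integrableOn (hSm n).compl
          intro y hy
          have hy' : (n : ℝ) < |y| := by
            by_contra hcc
            exact hy (abs_le.1 (not_lt.1 hcc))
          have h8 : (n : ℝ) - |x| ≤ |x - y| := by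
            have := abs_sub_abs_le_abs_sub y x
            rw [abs_sub_comm y x] at this
            linarith
          rw [norm_div, Real.norm_eq_abs, Real.norm_eq_abs, div_eq_inv_mul]
          gcongr
      _ ≤ ∫ y, ((n : ℝ) - |x|)⁻¹ * |f y| := by
          apply setIntegral_le_integral (hf.abs.const_mul _)
          exact Eventually.of_forall (fun y => by positivity)
      _ = ((n : ℝ) - |x|)⁻¹ * ∫ y, |f y| := integral_const_mul _ _
  have h9 := (hlim.const_sub (g x)).sub (hc0.mul_const (Hn (tent 0) x))
  rw [sub_zero, zero_mul, sub_zero] at h9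
  apply h9.congr'
  obtain ⟨n0, hn0⟩ := exists_nat_gt |x|
  filter_upwards [eventually_ge_atTop n0] with n hn
  simp only [hgn]
  rw [if_pos]
  apply abs_le.1
  have : (n0 : ℝ) ≤ n := by exact_mod_cast hn
  linarith

lemma integrable_mul_of_bdd {f k : ℝ → ℝ} (hf : Integrable f) (hk : Continuous k)
    (hA : ∃ A : ℝ, ∀ x, A < |x| → f x = 0) : Integrable (fun y => k y * f y) := by
  obtain ⟨A, hA⟩ := hA
  obtain ⟨M, hM⟩ := (isCompact_Icc (a := -A) (b := A)).exists_bound_of_continuousOn hk.continuousOn
  have h1 : Integrable (fun y => M * ‖f y‖) := hf.norm.const_mul M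
  apply h1.mono' (hk.aestronglyMeasurable.mul hf.aestronglyMeasurable)
  refine Eventually.of_forall (fun y => ?_)
  simp only [Pi.mul_apply]
  rw [norm_mul]
  by_cases hy : A < |y|
  · rw [hA y hy]; simp
  · have := hM y (abs_le.1 (not_lt.1 hy))
    gcongr

include hp hU in
theorem suffB (x0 : ℝ) (hB : Bd p (fun x => U x / |x - x0| ^ p) C) : Adm p U C := by
  apply trunc_arg hp hU
  intro f g hf hA hf0 hfg
  have hF : Integrable (fun y => (y - x0) * f y) :=
    integrable_mul_of_bdd hf (by fun_prop) hA
  have hT := hfg.mul_sub hf x0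
  have h1 := hB _ _ hF hT
  rw [nm_weight hp hU.nn (fun x => abs_nonneg _), nm_weight hp hU.nn (fun x => abs_nonneg _)] at h1
  have e1 : nm p U (fun x => ((x - x0) * g x - 1 / π * ∫ y, f y) / |x - x0|) = nm p U g := by
    apply nm_eq_of_abs hU.nn
    filter_upwards [ae_ne x0] with x hx
    have : |x - x0| ≠ 0 := abs_ne_zero.2 (sub_ne_zero.2 hx)
    rw [hf0, mul_zero, sub_zero, abs_div, abs_mul, abs_abs]
    field_simp
  have e2 : nm p U (fun x => (x - x0) * f x / |x - x0|) = nm p U f := by
    apply nm_eq_of_abs hU.nn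
    filter_upwards [ae_ne x0] with x hx
    have : |x - x0| ≠ 0 := abs_ne_zero.2 (sub_ne_zero.2 hx)
    rw [abs_div, abs_mul, abs_abs]
    field_simp
  rwa [e1, e2] at h1

include hp hU in
theorem suffC (hB : Bd p (fun x => U x / kk x ^ p) C) : Adm p U (2 * C) := by
  apply trunc_arg hp hU
  intro f g hf hA hf0 hfg
  have hF : Integrable (fun y => (y - 0) * f y) :=
    integrable_mul_of_bdd hf (by fun_prop) hA
  have hT := hfg.mul_sub hf 0
  have h1 := hB _ _ hF hT
  have h2 := hB _ _ hf hfg
  rw [nm_weight hp hU.nn (fun x => (kk_pos x).le), nm_weight hp hU.nn (fun x => (kk_pos x).le)]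
    at h1 h2
  have hkm : Measurable (fun x => (kk x)⁻¹) := by unfold kk; fun_prop
  have hgm := hfg.aesm hf
  have m1 : AEStronglyMeasurable (fun x => g x / kk x) volume := by
    simp_rw [div_eq_mul_inv]
    exact hgm.mul hkm.aestronglyMeasurable
  have m2 : AEStronglyMeasurable (fun x => ((x - 0) * g x - 1 / π * ∫ y, f y) / kk x) volume := by
    simp_rw [div_eq_mul_inv]
    refine AEStronglyMeasurable.mul ?_ hkm.aestronglyMeasurable
    refine AEStronglyMeasurable.sub ?_ aestronglyMeasurable_const
    have : Measurable (fun x : ℝ => x - 0) := by fun_prop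
    exact this.aestronglyMeasurable.mul hgm
  have h3 : nm p U g ≤ nm p U (fun x => |g x / kk x|
      + |((x - 0) * g x - 1 / π * ∫ y, f y) / kk x|) := by
    apply nm_mono hU.nn
    refine Eventually.of_forall (fun x => ?_)
    have hk := kk_pos x
    rw [hf0, mul_zero, sub_zero, sub_zero]
    refine le_trans ?_ (le_abs_self _)
    rw [abs_div, abs_div, abs_mul, abs_of_pos hk, ← add_div, le_div_iff₀ hk]
    have := kk_le x
    nlinarith [abs_nonneg (g x)]
  have h4 : nm p U (fun x => |g x / kk x| + |((x - 0) * g x - 1 / π * ∫ y, f y) / kk x|)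
      ≤ nm p U (fun x => g x / kk x)
        + nm p U (fun x => ((x - 0) * g x - 1 / π * ∫ y, f y) / kk x) := by
    refine (nm_add_le hp hU.meas m1.norm m2.norm).trans (le_of_eq ?_)
    congr 1
    · exact nm_eq_of_abs hU.nn (Eventually.of_forall (fun x => abs_abs _))
    · exact nm_eq_of_abs hU.nn (Eventually.of_forall (fun x => abs_abs _))
  have e1 : nm p U (fun x => (x - 0) * f x / kk x) ≤ nm p U f := by
    apply nm_mono hU.nn
    refine Eventually.of_forall (fun x => ?_)
    have hk := kk_pos x
    rw [abs_div, abs_mul, sub_zero, abs_of_pos hk, div_le_iff₀ hk, mul_comm]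
    have := abs_le_kk x
    gcongr
  have e2 : nm p U (fun x => f x / kk x) ≤ nm p U f := by
    apply nm_mono hU.nn
    refine Eventually.of_forall (fun x => ?_)
    have hk := kk_pos x
    rw [abs_div, abs_of_pos hk, div_le_iff₀ hk]
    have := kk_ge_one x
    nlinarith [abs_nonneg (f x)]
  calc nm p U g ≤ _ := h3
    _ ≤ _ := h4
    _ ≤ C * nm p U (fun x => f x / kk x) + C * nm p U (fun x => (x - 0) * f x / kk x) := by
        gcongr
    _ ≤ C * nm p U f + C * nm p U f := by gcongr
    _ = ((2 * C : ℝ≥0) : ℝ≥0∞) * nm p U f := by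
        push_cast
        ring

end

end Pool.Agent.X93.HW
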