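import Pool.Agent.X93.HW.CaseC2
import Pool.Agent.X93.HW.Suff
import Pool.Agent.X93.HW.Ap

/-! Assembly. -/

set_option autoImplicit false

open MeasureTheory Set Filter Topology
open scoped ENNReal NNReal Real

namespace Pool.Agent.X93.HW

/-- `∫ |f| ^ p U` -/
noncomputable def II (p : ℝ) (U f : ℝ → ℝ) : ℝ≥0∞ := ∫⁻ x, ENNReal.ofReal (|f x| ^ p * U x)

section

variable {p : ℝ} (hp : 1 < p) {U : ℝ → ℝ}

include hp in
lemma conv_le (hU : ∀ x, 0 ≤ U x) (f g : ℝ → ℝ) (C : ℝ≥0) :
    II p U g ≤ C * II p U f ↔ nm p U g ≤ ((C ^ (1 / p) : ℝ≥0) : ℝ≥0∞) * nm p U f := by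
  have hp0 : 0 < p := by linarith
  rw [nm_eq hp hU, nm_eq hp hU, ENNReal.coe_rpow_of_nonneg _ (by positivity),
    ← ENNReal.mul_rpow_of_nonneg _ _ (by positivity : (0 : ℝ) ≤ 1 / p)]
  exact (ENNReal.rpow_le_rpow_iff (by positivity)).symm

include hp in
lemma adm_iff (hU : ∀ x, 0 ≤ U x) : (∃ C : ℝ≥0, Adm p U C) ↔
    ∃ C : ℝ≥0, ∀ f g : ℝ → ℝ, Integrable f → ∫ x, f x = 0 → HT f g → II p U g ≤ C * II p U f := by
  have hp0 : 0 < p := by linarith
  constructor
  · rintro ⟨C, hC⟩
    refine ⟨C ^ p, fun f g h1 h2 h3 => ?_⟩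
    rw [conv_le hp hU, ← NNReal.rpow_mul, mul_one_div_cancel hp0.ne', NNReal.rpow_one]
    exact hC f g h1 h2 h3
  · rintro ⟨C, hC⟩
    exact ⟨C ^ (1 / p), fun f g h1 h2 h3 => (conv_le hp hU f g C).1 (hC f g h1 h2 h3)⟩

include hp in
lemma bd_iff (hU : ∀ x, 0 ≤ U x) : (∃ C : ℝ≥0, Bd p U C) ↔
    ∃ C : ℝ≥0, ∀ f g : ℝ → ℝ, Integrable f → HT f g → II p U g ≤ C * II p U f := by
  have hp0 : 0 < p := by linarith
  constructor
  · rintro ⟨C, hC⟩
    refine ⟨C ^ p, fun f g h1 h3 => ?_⟩
    rw [conv_le hp hU, ← NNReal.rpow_mul, mul_one_div_cancel hp0.ne', NNReal.rpow_one]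
    exact hC f g h1 h3
  · rintro ⟨C, hC⟩
    exact ⟨C ^ (1 / p), fun f g h1 h3 => (conv_le hp hU f g C).1 (hC f g h1 h3)⟩

/-- the three cases -/
lemma trichotomy (hU : Measurable U) : (∀ n : ℕ, ∫⁻ x in {x : ℝ | (n : ℝ) < |x|}, sg p U x = ∞) ∨
    (∃ x0 : ℝ, ∀ n : ℕ, ∫⁻ x in {x : ℝ | |x - x0| < 1 / ((n : ℝ) + 1)}, sg p U x = ∞) ∨
    ∫⁻ x, sg p U x ≠ ∞ := by
  by_cases hA : ∀ n : ℕ, ∫⁻ x in {x : ℝ | (n : ℝ) < |x|}, sg p U x = ∞
  · exact Or.inl hA
  by_cases hB : ∃ x0 : ℝ, ∀ n : ℕ, ∫⁻ x in {x : ℝ | |x - x0| < 1 / ((n : ℝ) + 1)}, sg p U x = ∞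
  · exact Or.inr (Or.inl hB)
  refine Or.inr (Or.inr ?_)
  push Not at hA hB
  obtain ⟨n, hn⟩ := hA
  set ν : Measure ℝ := volume.withDensity (sg p U) with hν
  have h1 : ν (Icc (-(n : ℝ)) n) < ⊤ := by
    apply isCompact_Icc.measure_lt_top_of_nhdsWithin
    intro x _
    obtain ⟨m, hm⟩ := hB x
    refine ⟨{y : ℝ | |y - x| < 1 / ((m : ℝ) + 1)}, ?_, ?_⟩
    · apply mem_nhdsWithin_of_mem_nhds
      have : Metric.ball x (1 / ((m : ℝ) + 1)) ∈ 𝓝 x := Metric.ball_mem_nhds x (by positivity)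
      refine Filter.mem_of_superset this (fun y hy => ?_)
      rw [Metric.mem_ball, Real.dist_eq] at hy
      exact hy
    · rw [hν, withDensity_apply _ (measurableSet_lt (by fun_prop) measurable_const)]
      exact lt_top_iff_ne_top.2 hm
  have h2 : ν {x : ℝ | (n : ℝ) < |x|} < ⊤ := by
    rw [hν, withDensity_apply _ (measurableSet_lt measurable_const (by fun_prop))]
    exact lt_top_iff_ne_top.2 hn
  have h3 : ν univ < ⊤ := by
    have h4 : (univ : Set ℝ) ⊆ Icc (-(n : ℝ)) n ∪ {x : ℝ | (n : ℝ) < |x|} := by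
      intro x _
      by_cases hx : (n : ℝ) < |x|
      · exact Or.inr hx
      · exact Or.inl (abs_le.1 (not_lt.1 hx))
    refine lt_of_le_of_lt (measure_mono h4) (lt_of_le_of_lt (measure_union_le _ _) ?_)
    exact ENNReal.add_lt_top.2 ⟨h1, h2⟩
  rw [hν, withDensity_apply _ MeasurableSet.univ, Measure.restrict_univ] at h3
  exact h3.ne

include hp in
lemma nm_indicator' (hV : ∀ x, 0 ≤ U x) (c : ℝ) (hc : 0 ≤ c) {S : Set ℝ} (hS : MeasurableSet S) :
    nm p U (S.indicator (fun _ => c)) = ENNReal.ofReal c * (∫⁻ x in S, ENNReal.ofReal (U x)) ^ (1 / p) := by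
  have hp0 : 0 < p := by linarith
  rw [nm_eq hp hV]
  have h1 : ∫⁻ x, ENNReal.ofReal (|S.indicator (fun _ => c) x| ^ p * U x)
      = ENNReal.ofReal (c ^ p) * ∫⁻ x in S, ENNReal.ofReal (U x) := by
    rw [← lintegral_indicator hS, ← lintegral_const_mul' _ _ ENNReal.ofReal_ne_top]
    apply lintegral_congr
    intro x
    by_cases hx : x ∈ S
    · rw [indicator_of_mem hx, indicator_of_mem hx, abs_of_nonneg hc,
        ENNReal.ofReal_mul (Real.rpow_nonneg hc _)]
    · rw [indicator_of_notMem hx, indicator_of_notMem hx, abs_zero, Real.zero_rpow hp0.ne', zero_mul,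
        ENNReal.ofReal_zero, mul_zero]
  rw [h1, ENNReal.mul_rpow_of_nonneg _ _ (by positivity),
    ENNReal.ofReal_rpow_of_nonneg (Real.rpow_nonneg hc _) (by positivity),
    ← Real.rpow_mul hc, mul_one_div_cancel hp0.ne', Real.rpow_one]

variable (hU : Wt U)

include hp hU in
lemma wtC : Wt (fun x => U x / kk x ^ p) := by
  have hkm : Measurable (fun x => kk x ^ p) := by unfold kk; fun_prop
  refine ⟨hU.meas.div hkm, fun x => div_nonneg (hU.nn x) (Real.rpow_nonneg (kk_pos x).le _), ?_, ?_⟩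
  · apply hU.loc.mono (hU.meas.div hkm).aestronglyMeasurable
    refine Eventually.of_forall (fun x => ?_)
    have h1 : 1 ≤ kk x ^ p := Real.one_le_rpow (kk_ge_one x) (by linarith)
    simp only [Pi.div_apply]
    rw [Real.norm_eq_abs, Real.norm_eq_abs, abs_div, abs_of_pos (lt_of_lt_of_le one_pos h1)]
    exact div_le_self (abs_nonneg _) h1
  · intro h
    apply hU.ne
    filter_upwards [h] with x hx
    have h1 : 0 < kk x ^ p := Real.rpow_pos_of_pos (kk_pos x) _
    simp only [Pi.zero_apply, div_eq_zero_iff] at hx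
    exact hx.resolve_right h1.ne'

include hp hU in
lemma wtB (x0 : ℝ) {C : ℝ≥0} (hbd : Bd p (fun x => U x / |x - x0| ^ p) C) :
    Wt (fun x => U x / |x - x0| ^ p) := by
  have hp0 : 0 < p := by linarith
  have hpi := Real.pi_pos
  have hkm : Measurable (fun x => |x - x0| ^ p) := by
    apply Measurable.pow_const; fun_prop
  have hWm : Measurable (fun x => U x / |x - x0| ^ p) := hU.meas.div hkm
  have hWn : ∀ x, 0 ≤ U x / |x - x0| ^ p := fun x =>
    div_nonneg (hU.nn x) (Real.rpow_nonneg (abs_nonneg _) _)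
  refine ⟨hWm, hWn, ?_, ?_⟩
  · -- integrability near `x0`
    set W : ℝ → ℝ := fun x => U x / |x - x0| ^ p with hW
    have hψ := tent_nice (x0 + 3)
    have h1 := hbd _ _ hψ.integrable hψ.ht
    have h2 : nm p W (tent (x0 + 3)) < ⊤ := by
      rw [hW, nm_weight hp hU.nn (fun x => abs_nonneg _)]
      refine lt_of_le_of_lt (nm_mono hU.nn (g := tent (x0 + 3)) ?_) (nm_tent hp hU (x0 + 3))
      refine Eventually.of_forall (fun x => ?_)
      by_cases hx : tent (x0 + 3) x = 0
      · rw [hx]; simp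
      · have h3 : |x - (x0 + 3)| < 1 := by
          by_contra hc
          exact hx (tent_zero (not_lt.1 hc))
        have h4 := (abs_lt.1 h3).1
        rw [abs_div, abs_abs]
        apply div_le_self (abs_nonneg _)
        rw [abs_of_pos (by linarith)]
        linarith
    have h3 : nm p W (Hn (tent (x0 + 3))) < ⊤ :=
      lt_of_le_of_lt h1 (ENNReal.mul_lt_top ENNReal.coe_lt_top h2)
    have h4 : nm p W ((Ioo (x0 - 1) (x0 + 1)).indicator (fun _ => 1 / π * (1 / 5)))
        ≤ nm p W (Hn (tent (x0 + 3))) := by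
      apply nm_mono hWn
      refine Eventually.of_forall (fun x => ?_)
      by_cases hx : x ∈ Ioo (x0 - 1) (x0 + 1)
      · rw [indicator_of_mem hx, abs_of_pos (by positivity)]
        have hz : ∀ y, |y - x| < 1 → tent (x0 + 3) y = 0 := by
          intro y hy
          apply tent_zero
          have := (abs_lt.1 hy).2
          rw [abs_of_nonpos (by linarith [hx.2])]
          linarith [hx.2]
        rw [hψ.far_eq one_pos hz, abs_mul, abs_of_pos (by positivity : 0 < 1 / π)]
        have hI := integrable_far hψ.integrable one_pos hz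
        have h5 : (1 / 5 : ℝ) ≤ |∫ y, tent (x0 + 3) y / (x - y)| := by
          refine le_trans ?_ (neg_le_abs _)
          rw [← integral_neg]
          have h6 : (1 / 5 : ℝ) = ∫ y, tent (x0 + 3) y * (1 / 5) := by
            rw [integral_mul_const, tent_int, one_mul]
          rw [h6]
          apply integral_mono (hψ.integrable.mul_const _) hI.neg
          intro y
          simp only [Pi.neg_apply]
          by_cases hy : tent (x0 + 3) y = 0
          · rw [hy]; simp
          · have h7 : |y - (x0 + 3)| < 1 := by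
              by_contra hc
              exact hy (tent_zero (not_lt.1 hc))
            have h8 := abs_lt.1 h7
            have h9 : -(tent (x0 + 3) y / (x - y)) = tent (x0 + 3) y * (1 / (y - x)) := by
              rw [← div_neg, mul_one_div]
              congr 1
              ring
            rw [h9]
            apply mul_le_mul_of_nonneg_left _ (tent_nonneg _ _)
            apply one_div_le_one_div_of_le
            · linarith [hx.2, h8.1]
            · linarith [hx.1, h8.2]
        gcongr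
      · rw [indicator_of_notMem hx, abs_zero]
        exact abs_nonneg _
    rw [nm_indicator' hp hWn _ (by positivity) measurableSet_Ioo] at h4
    have h5 : (∫⁻ x in Ioo (x0 - 1) (x0 + 1), ENNReal.ofReal (W x)) ≠ ⊤ := by
      intro h
      rw [h, ENNReal.top_rpow_of_pos (by positivity), ENNReal.mul_top] at h4
      · exact absurd (lt_of_le_of_lt h4 h3) (lt_irrefl _)
      · rw [Ne, ENNReal.ofReal_eq_zero, not_le]
        positivity
    intro x
    by_cases hx : |x - x0| < 1
    · refine ⟨Ioo (x0 - 1) (x0 + 1), Ioo_mem_nhds (by linarith [(abs_lt.1 hx).1])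
        (by linarith [(abs_lt.1 hx).2]), ?_⟩
      refine ⟨hWm.aestronglyMeasurable, ?_⟩
      rw [hasFiniteIntegral_iff_ofReal (Eventually.of_forall hWn)]
      exact lt_top_iff_ne_top.2 h5
    · have hx' := not_lt.1 hx
      obtain ⟨s, hs, hi⟩ := hU.loc x
      refine ⟨s ∩ Metric.ball x (1 / 2), Filter.inter_mem hs (Metric.ball_mem_nhds x (by norm_num)), ?_⟩
      have hi2 : IntegrableOn (fun y => U y * (1 / (1 / 2) ^ p)) (s ∩ Metric.ball x (1 / 2)) :=
        (hi.mono_set inter_subset_left).mul_const _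
      have hball : ∀ y ∈ Metric.ball x (1 / 2), (1 / 2 : ℝ) ≤ |y - x0| := by
        intro y hy
        rw [Metric.mem_ball, Real.dist_eq] at hy
        have := abs_sub_le x y x0
        rw [abs_sub_comm x y] at this
        linarith
      have hle : ∀ᵐ y ∂(volume.restrict (s ∩ Metric.ball x (1 / 2))),
          ‖W y‖ ≤ U y * (1 / (1 / 2) ^ p) := by
        have h6 : ∀ᵐ y ∂(volume.restrict (s ∩ Metric.ball x (1 / 2))), y ∈ Metric.ball x (1 / 2) := by
          have := ae_restrict_mem (μ := (volume : Measure ℝ)) (Metric.isOpen_ball (x := x)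
            (ε := 1 / 2)).measurableSet
          exact ae_mono (Measure.restrict_mono inter_subset_right le_rfl) this
        filter_upwards [h6] with y hy
        have h7 := hball y hy
        rw [Real.norm_eq_abs, abs_of_nonneg (hWn y), div_eq_mul_one_div]
        apply mul_le_mul_of_nonneg_left _ (hU.nn y)
        apply one_div_le_one_div_of_le (by positivity)
        apply Real.rpow_le_rpow (by norm_num) h7 hp0.le
      exact hi2.mono' hWm.aestronglyMeasurable hle
  · intro h
    apply hU.ne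
    filter_upwards [h, ae_ne x0] with x hx hxx
    have h1 : 0 < |x - x0| ^ p := Real.rpow_pos_of_pos (abs_pos.2 (sub_ne_zero.2 hxx)) _
    simp only [Pi.zero_apply, div_eq_zero_iff] at hx
    exact hx.resolve_right h1.ne'

include hp hU in
/-- the characterization -/
theorem char : (∃ C : ℝ≥0, Adm p U C) ↔ (∃ C : ℝ≥0, Bd p U C) ∨
    (∃ x0 : ℝ, Wt (fun x => U x / |x - x0| ^ p) ∧ ∃ C : ℝ≥0, Bd p (fun x => U x / |x - x0| ^ p) C) ∨
    ∃ C : ℝ≥0, Bd p (fun x => U x / kk x ^ p) C := by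
  constructor
  · rintro ⟨C, hC⟩
    rcases trichotomy (p := p) hU.meas with hA | ⟨x0, hB⟩ | hσ
    · exact Or.inl ⟨C, caseA hp hU hC hA⟩
    · have h := caseB hp hU hC x0 hB
      exact Or.inr (Or.inl ⟨x0, wtB hp hU x0 h, C, h⟩)
    · exact Or.inr (Or.inr (caseC hp hU hC hσ))
  · rintro (⟨C, hC⟩ | ⟨x0, -, C, hC⟩ | ⟨C, hC⟩)
    · exact ⟨C, fun f g h1 _ h3 => hC f g h1 h3⟩
    · exact ⟨C, suffB hp hU x0 hC⟩
    · exact ⟨2 * C, suffC hp hU hC⟩

end

end Pool.Agent.X93.HW
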