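import Mathlib

/-! The principal value Hilbert transform of integrable functions: basic rules. -/

set_option autoImplicit false

open MeasureTheory Set Filter Topology
open scoped ENNReal NNReal Real

namespace Pool.Agent.X93.HW

/-- the part of the integral over `|y - x| > δ` -/
noncomputable def tr (f : ℝ → ℝ) (δ x : ℝ) : ℝ :=
  1 / π * ∫ y in {y : ℝ | δ < |y - x|}, f y / (x - y)

/-- `g` is the Hilbert transform of `f` -/
def HT (f g : ℝ → ℝ) : Prop :=
  ∀ᵐ x : ℝ, Tendsto (fun δ => tr f δ x) (𝓝[>] 0) (𝓝 (g x))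

lemma meas_set (δ x : ℝ) : MeasurableSet {y : ℝ | δ < |y - x|} :=
  measurableSet_lt measurable_const (by fun_prop)

lemma int_quot {f : ℝ → ℝ} (hf : Integrable f) {δ : ℝ} (hδ : 0 < δ) (x : ℝ) :
    IntegrableOn (fun y => f y / (x - y)) {y : ℝ | δ < |y - x|} := by
  have h1 : Integrable (fun y => δ⁻¹ * ‖f y‖) (volume.restrict {y : ℝ | δ < |y - x|}) :=
    (hf.norm.const_mul _).restrict
  apply h1.mono'
  · have hm : Measurable (fun y : ℝ => (x - y)⁻¹) := (measurable_const.sub measurable_id).inv
    simp_rw [div_eq_mul_inv]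
    exact (hf.aestronglyMeasurable.mul hm.aestronglyMeasurable).restrict
  · rw [ae_restrict_iff' (meas_set δ x)]
    refine Eventually.of_forall (fun y hy => ?_)
    have hy' : δ < |x - y| := by rw [abs_sub_comm]; exact hy
    rw [norm_div, div_eq_inv_mul, Real.norm_eq_abs (x - y)]
    gcongr

lemma tr_add {f g : ℝ → ℝ} (hf : Integrable f) (hg : Integrable g) {δ : ℝ} (hδ : 0 < δ) (x : ℝ) :
    tr (fun y => f y + g y) δ x = tr f δ x + tr g δ x := by
  unfold tr
  rw [← mul_add, ← integral_add (int_quot hf hδ x) (int_quot hg hδ x)]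
  congr 1
  apply integral_congr_ae
  refine Eventually.of_forall (fun y => ?_)
  simp only
  ring

lemma tr_const_mul (c : ℝ) (f : ℝ → ℝ) (δ x : ℝ) :
    tr (fun y => c * f y) δ x = c * tr f δ x := by
  unfold tr
  have h : ∫ y in {y : ℝ | δ < |y - x|}, c * f y / (x - y)
      = c * ∫ y in {y : ℝ | δ < |y - x|}, f y / (x - y) := by
    rw [← integral_const_mul]
    congr 1
    ext y
    ring
  simp only [h]
  ring

lemma HT.add {f g F G : ℝ → ℝ} (h1 : HT f F) (h2 : HT g G) (hf : Integrable f)
    (hg : Integrable g) : HT (fun y => f y + g y) (fun x => F x + G x) := by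
  filter_upwards [h1, h2] with x hx1 hx2
  apply (hx1.add hx2).congr'
  filter_upwards [self_mem_nhdsWithin] with δ hδ
  rw [tr_add hf hg hδ]

lemma HT.const_mul {f F : ℝ → ℝ} (h1 : HT f F) (c : ℝ) :
    HT (fun y => c * f y) (fun x => c * F x) := by
  filter_upwards [h1] with x hx1
  apply (hx1.const_mul c).congr
  intro δ
  rw [tr_const_mul]

lemma HT.sub_mul {f g F G : ℝ → ℝ} (h1 : HT f F) (h2 : HT g G) (hf : Integrable f)
    (hg : Integrable g) (c : ℝ) : HT (fun y => f y - c * g y) (fun x => F x - c * G x) := by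
  have h3 := h1.add (h2.const_mul (-c)) hf (hg.const_mul _)
  have e1 : (fun y => f y + -c * g y) = fun y => f y - c * g y := by ext y; ring
  have e2 : (fun y => F y + -c * G y) = fun y => F y - c * G y := by ext y; ring
  rwa [e1, e2] at h3

lemma lim_int {f : ℝ → ℝ} (hf : Integrable f) (x : ℝ) :
    Tendsto (fun δ : ℝ => ∫ y in {y : ℝ | δ < |y - x|}, f y) (𝓝[>] 0) (𝓝 (∫ y, f y)) := by
  have h1 : Tendsto (fun δ : ℝ => ∫ y, {y : ℝ | δ < |y - x|}.indicator f y) (𝓝[>] 0)
      (𝓝 (∫ y, f y)) := by
    apply tendsto_integral_filter_of_dominated_convergence (fun y => ‖f y‖)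
    · exact Eventually.of_forall (fun δ => hf.aestronglyMeasurable.indicator (meas_set δ x))
    · exact Eventually.of_forall (fun δ => Eventually.of_forall (fun y =>
        norm_indicator_le_norm_self _ _))
    · exact hf.norm
    · have h2 : ∀ᵐ y : ℝ, y ≠ x := by
        rw [ae_iff]; simp
      filter_upwards [h2] with y hy
      apply tendsto_const_nhds.congr'
      have h4 : ∀ᶠ ε : ℝ in 𝓝[>] 0, ε < |y - x| := by
        apply mem_nhdsWithin_of_mem_nhds
        exact Iio_mem_nhds (abs_pos.2 (sub_ne_zero.2 hy))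
      filter_upwards [h4] with ε hε
      rw [indicator_of_mem]
      exact hε
  apply h1.congr
  intro δ
  rw [integral_indicator (meas_set δ x)]

/-- multiplication by `y - a` -/
lemma tr_mul_sub {f : ℝ → ℝ} (hf : Integrable f) (a : ℝ) {δ : ℝ} (hδ : 0 < δ) (x : ℝ) :
    tr (fun y => (y - a) * f y) δ x
      = (x - a) * tr f δ x - 1 / π * ∫ y in {y : ℝ | δ < |y - x|}, f y := by
  unfold tr
  rw [mul_left_comm, ← mul_sub]
  congr 1
  have h0 : (x - a) * ∫ y in {y : ℝ | δ < |y - x|}, f y / (x - y)
      = ∫ y in {y : ℝ | δ < |y - x|}, (x - a) * (f y / (x - y)) := (integral_const_mul _ _).symm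
  rw [h0, ← integral_sub ((int_quot hf hδ x).const_mul _) hf.integrableOn]
  apply setIntegral_congr_fun (meas_set δ x)
  intro y hy
  have h1 : x - y ≠ 0 := by
    intro h
    have : δ < |y - x| := hy
    rw [abs_sub_comm, h, abs_zero] at this
    linarith
  field_simp
  ring

lemma HT.mul_sub {f F : ℝ → ℝ} (h : HT f F) (hf : Integrable f) (a : ℝ) :
    HT (fun y => (y - a) * f y) (fun x => (x - a) * F x - 1 / π * ∫ y, f y) := by
  filter_upwards [h] with x hx
  have h1 := (hx.const_mul (x - a)).sub ((lim_int hf x).const_mul (1 / π))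
  apply h1.congr'
  filter_upwards [self_mem_nhdsWithin] with δ hδ
  rw [tr_mul_sub hf a hδ]

/-- division by `y - a` -/
lemma HT.div_sub {f F : ℝ → ℝ} (a : ℝ) (h : HT (fun y => (y - a) * f y) F) (hf : Integrable f) :
    HT f (fun x => (F x + 1 / π * ∫ y, f y) / (x - a)) := by
  have h2 : ∀ᵐ x : ℝ, x ≠ a := by
    rw [ae_iff]; simp
  filter_upwards [h, h2] with x hx hxa
  have h1 := (hx.add ((lim_int hf x).const_mul (1 / π))).div_const (x - a)
  apply h1.congr'
  filter_upwards [self_mem_nhdsWithin] with δ hδ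
  rw [tr_mul_sub hf a hδ]
  have : x - a ≠ 0 := sub_ne_zero.2 hxa
  field_simp
  ring

/-- division by `1 + y ^ 2` -/
lemma HT.div_sq {f F : ℝ → ℝ} (h : HT f F) (hf : Integrable f) :
    HT (fun y => f y / (1 + y ^ 2)) (fun x => (F x + 1 / π * (x * (∫ y, f y / (1 + y ^ 2))
      + ∫ y, y * f y / (1 + y ^ 2))) / (1 + x ^ 2)) := by
  have i1 : Integrable (fun y => f y / (1 + y ^ 2)) := by
    have hm : Measurable (fun y : ℝ => (1 + y ^ 2)⁻¹) := by fun_prop
    have := hf.bdd_mul (c := 1) (f := fun y => (1 + y ^ 2)⁻¹) hm.aestronglyMeasurable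
      (Eventually.of_forall (fun y => by
        rw [Real.norm_eq_abs, abs_of_pos (by positivity)]
        exact inv_le_one_of_one_le₀ (by nlinarith [sq_nonneg y])))
    refine this.congr (Eventually.of_forall (fun y => ?_))
    simp only
    ring
  have i2 : Integrable (fun y => y * f y / (1 + y ^ 2)) := by
    have hm : Measurable (fun y : ℝ => y * (1 + y ^ 2)⁻¹) := by fun_prop
    have := hf.bdd_mul (c := 1) (f := fun y => y * (1 + y ^ 2)⁻¹) hm.aestronglyMeasurable
      (Eventually.of_forall (fun y => by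
        rw [Real.norm_eq_abs, abs_mul, abs_of_pos (by positivity : (0 : ℝ) < (1 + y ^ 2)⁻¹),
          ← div_eq_mul_inv, div_le_one (by positivity)]
        nlinarith [sq_abs y, abs_nonneg y, sq_nonneg (|y| - 1)]))
    refine this.congr (Eventually.of_forall (fun y => ?_))
    simp only
    ring
  filter_upwards [h] with x hx
  have h1 := (hx.add ((((lim_int i1 x).const_mul x).add (lim_int i2 x)).const_mul
    (1 / π))).div_const (1 + x ^ 2)
  apply h1.congr'
  filter_upwards [self_mem_nhdsWithin] with δ hδ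
  unfold tr
  have hx2 : (1 + x ^ 2) ≠ 0 := by positivity
  rw [div_eq_iff hx2, mul_assoc, ← mul_add]
  congr 1
  have e0 : x * ∫ y in {y : ℝ | δ < |y - x|}, f y / (1 + y ^ 2)
      = ∫ y in {y : ℝ | δ < |y - x|}, x * (f y / (1 + y ^ 2)) := (integral_const_mul _ _).symm
  rw [e0, ← integral_add (i1.integrableOn.const_mul _) i2.integrableOn]
  have e1 := integral_add (int_quot hf hδ x)
      ((i1.integrableOn.const_mul x).add i2.integrableOn)
  simp only [Pi.add_apply] at e1
  rw [← e1, ← integral_mul_const]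
  apply setIntegral_congr_fun (meas_set δ x)
  intro y hy
  have h1 : x - y ≠ 0 := by
    intro h
    have h3 : δ < |y - x| := hy
    have h4 : (0 : ℝ) < δ := hδ
    rw [abs_sub_comm, h, abs_zero] at h3
    linarith
  have h2 : (1 + y ^ 2) ≠ 0 := by positivity
  simp only [Pi.add_apply]
  field_simp
  ring

/-- away from the support -/
lemma far {f : ℝ → ℝ} {x r : ℝ} (hr : 0 < r) (hz : ∀ y, |y - x| < r → f y = 0) :
    Tendsto (fun δ => tr f δ x) (𝓝[>] 0) (𝓝 (1 / π * ∫ y, f y / (x - y))) := by
  apply tendsto_const_nhds.congr'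
  have h4 : ∀ᶠ ε : ℝ in 𝓝[>] 0, ε < r := by
    apply mem_nhdsWithin_of_mem_nhds
    exact Iio_mem_nhds hr
  filter_upwards [h4] with δ hδ
  unfold tr
  congr 1
  symm
  apply setIntegral_eq_integral_of_forall_compl_eq_zero
  intro y hy
  have : ¬ δ < |y - x| := hy
  rw [hz y (lt_of_le_of_lt (not_lt.1 this) hδ), zero_div]

open Classical in
/-- restriction to a set with null boundary -/
lemma HT.restrict {f F : ℝ → ℝ} (h : HT f F) (hf : Integrable f) {S : Set ℝ}
    (hS : MeasurableSet S) (hfr : volume (frontier S) = 0) :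
    HT (S.indicator f) (fun x => if x ∈ S then F x - 1 / π * ∫ y in Sᶜ, f y / (x - y)
      else 1 / π * ∫ y in S, f y / (x - y)) := by
  have h2 : ∀ᵐ x : ℝ, x ∉ frontier S := by
    rw [ae_iff]; simpa using hfr
  filter_upwards [h, h2] with x hx hxf
  have hind : ∀ (T : Set ℝ), MeasurableSet T →
      ∫ y, T.indicator f y / (x - y) = ∫ y in T, f y / (x - y) := by
    intro T hT
    rw [← integral_indicator hT]
    congr 1
    ext y
    by_cases hy : y ∈ T
    · simp [hy]
    · simp [hy]
  by_cases hxS : x ∈ S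
  · rw [if_pos hxS]
    have hint : x ∈ interior S := by
      by_contra hc
      exact hxf ⟨subset_closure hxS, hc⟩
    obtain ⟨r, hr, hball⟩ := Metric.isOpen_iff.1 isOpen_interior x hint
    have h3 : Tendsto (fun δ => tr (Sᶜ.indicator f) δ x) (𝓝[>] 0)
        (𝓝 (1 / π * ∫ y, Sᶜ.indicator f y / (x - y))) := by
      apply far hr
      intro y hy
      apply indicator_of_notMem
      rw [notMem_compl_iff]
      exact interior_subset (hball (by rw [Metric.mem_ball, Real.dist_eq]; exact hy))
    rw [hind _ hS.compl] at h3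
    apply (hx.sub h3).congr'
    filter_upwards [self_mem_nhdsWithin] with δ hδ
    have h4 := tr_add (hf.indicator hS) (hf.indicator hS.compl) hδ x
    have h5 : (fun y => S.indicator f y + Sᶜ.indicator f y) = f := by
      ext y
      exact congrFun (indicator_self_add_compl S f) y
    rw [h5] at h4
    linarith
  · rw [if_neg hxS]
    have hint : x ∈ interior Sᶜ := by
      rw [interior_compl, mem_compl_iff]
      intro hc
      exact hxf ⟨hc, fun hi => hxS (interior_subset hi)⟩
    obtain ⟨r, hr, hball⟩ := Metric.isOpen_iff.1 isOpen_interior x hint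
    rw [← hind _ hS]
    apply far hr
    intro y hy
    apply indicator_of_notMem
    exact interior_subset (hball (by rw [Metric.mem_ball, Real.dist_eq]; exact hy))

end Pool.Agent.X93.HW
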